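import Pool.Agent.Lib.MP_6e0dc6_co.Defs

/-! MP_6e0dc6_co, board LF: matching-forcing sequences with at least two terms 1. Definitions. -/

set_option autoImplicit false

namespace Pool.Agent.MP_6e0dc6_co.Leaf2

variable {V : Type*}

/-- `G` has the degrees `f`. -/
def Rz (f : V → ℕ) (G : SimpleGraph V) : Prop := ∀ a, (G.neighborSet a).ncard = f a

/-- A perfect matching as a fixed point free involution along edges. -/
def Mat (G : SimpleGraph V) : Prop := ∃ m : V → V, ∀ v, m (m v) = v ∧ G.Adj v (m v)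

/-- Every graph with the degrees `h` has a matching which misses at most `d` vertices. -/
def MissAtMost {α : Type*} (h : α → ℕ) (d : ℕ) : Prop :=
  ∀ H : SimpleGraph α, (∀ a, (H.neighborSet a).ncard = h a) →
    ∃ M : H.Subgraph, M.IsMatching ∧ (M.vertsᶜ).ncard ≤ d

/-- `O` is independent; a vertex outside `O` with a neighbour in `O` has only one neighbour in `O`
and is adjacent to all other vertices outside `O`. -/
structure Struct (G : SimpleGraph V) (O : Set V) : Prop where
  indep : ∀ o ∈ O, ∀ o' ∈ O, ¬ G.Adj o o'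
  full : ∀ x, x ∉ O → (∃ o ∈ O, G.Adj x o) → ∀ w, w ∉ O → w ≠ x → G.Adj x w
  uniq : ∀ x, x ∉ O → ∀ o ∈ O, ∀ o' ∈ O, G.Adj x o → G.Adj x o' → o = o'

/-- the arithmetic part of the condition -/
structure Num [Fintype V] (f : V → ℕ) (j D : ℕ) : Prop where
  pos : ∀ i, 1 ≤ f i
  le : ∀ i, f i ≤ D
  top : {i | f i = D}.ncard = j
  card : D + {i | f i < j}.ncard = Fintype.card V
  sum : (∑ i, if f i < j then f i else 0) = j

/-- the condition -/
def CondC [Fintype V] (f : V → ℕ) : Prop :=
  ∃ j D : ℕ, Num f j D ∧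
    MissAtMost (fun i : {i // j ≤ f i ∧ f i < D} => f i - j) (j - {i | f i < j}.ncard)

end Pool.Agent.MP_6e0dc6_co.Leaf2
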