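import Pool.Agent.Lib.MP_6e0dc6_co.Leaf2.Basic

/-! Board LF, module Cnt: every realization has the structure. -/

set_option autoImplicit false

namespace Pool.Agent.MP_6e0dc6_co.Leaf2

variable {V : Type*} [Fintype V] [DecidableEq V]

theorem num_struct {f : V → ℕ} {j D : ℕ} (hn : Nonempty V) (h : Num f j D) {G : SimpleGraph V} (hG : Rz f G) :
    j ≤ D ∧ Struct G {i | f i < j} ∧ (∀ a, f a = D → ∃ o, f o < j ∧ G.Adj a o) ∧
      (∀ o, f o < j → ∀ x, G.Adj o x → f x = D) := by
  classical
  obtain ⟨hpos, hle, htop, hcard, hsum⟩ := h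
  set O : Finset V := Finset.univ.filter (fun i => f i < j) with hO
  set K : Finset V := Finset.univ.filter (fun i => f i = D) with hK
  have hOc : {i | f i < j}.ncard = O.card := by
    rw [← Set.ncard_coe_finset]
    congr 1
    ext i
    simp [hO]
  have hKc : K.card = j := by
    rw [← htop, ← Set.ncard_coe_finset]
    congr 1
    ext i
    simp [hK]
  rw [hOc] at hcard
  have hsum2 : ∑ o ∈ O, f o = j := by
    rw [← hsum, hO, Finset.sum_filter]
  have hjD : j ≤ D := by
    by_contra hlt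
    push Not at hlt
    have h1 : O = Finset.univ := by
      ext i
      simp only [hO, Finset.mem_filter, Finset.mem_univ, true_and, iff_true]
      exact lt_of_le_of_lt (hle i) hlt
    have h2 : O.card = Fintype.card V := by rw [h1, Finset.card_univ]
    obtain ⟨v⟩ := hn
    have h3 := hpos v
    have h4 := hle v
    omega
  set nb : V → Finset V := fun a => Finset.univ.filter (fun x => G.Adj a x) with hnb
  have hnbc : ∀ a, (nb a).card = f a := by
    intro a
    rw [← hG a, ← Set.ncard_coe_finset]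
    congr 1
    ext i
    simp [hnb]
  have hmO : ∀ i, i ∈ O ↔ f i < j := by intro i; simp [hO]
  have hmK : ∀ i, i ∈ K ↔ f i = D := by intro i; simp [hK]
  have hmn : ∀ a i, i ∈ nb a ↔ G.Adj a i := by intro a i; simp [hnb]
  have hsub : ∀ a ∈ K, nb a \ O ⊆ (Finset.univ \ O).erase a := by
    intro a _ x hx
    rw [Finset.mem_sdiff, hmn] at hx
    rw [Finset.mem_erase, Finset.mem_sdiff]
    exact ⟨fun e => G.loopless.irrefl a (e ▸ hx.1), Finset.mem_univ _, hx.2⟩
  have hec : ∀ a ∈ K, ((Finset.univ \ O).erase a).card + 1 = D := by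
    intro a ha
    have h1 : a ∈ Finset.univ \ O := by
      rw [Finset.mem_sdiff, hmO]
      rw [hmK] at ha
      exact ⟨Finset.mem_univ _, by omega⟩
    rw [Finset.card_erase_add_one h1, Finset.card_sdiff_of_subset (Finset.subset_univ O), Finset.card_univ]
    omega
  have hsplit : ∀ a, (nb a \ O).card + (nb a ∩ O).card = f a := by
    intro a
    rw [← hnbc a]
    exact Finset.card_sdiff_add_card_inter (nb a) O
  have hge : ∀ a ∈ K, 1 ≤ (nb a ∩ O).card := by
    intro a ha
    have h1 := Finset.card_le_card (hsub a ha)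
    have h2 := hec a ha
    have h3 := hsplit a
    have h4 := (hmK a).1 ha
    omega
  have hle2 : ∀ o ∈ O, (nb o ∩ K).card ≤ f o := by
    intro o _
    rw [← hnbc o]
    exact Finset.card_le_card Finset.inter_subset_left
  have hdc : ∑ a ∈ K, (nb a ∩ O).card = ∑ o ∈ O, (nb o ∩ K).card := by
    have h1 : ∀ a ∈ K, (nb a ∩ O).card = ∑ o ∈ O, if G.Adj a o then 1 else 0 := by
      intro a _
      rw [← Finset.card_filter]
      congr 1
      ext x
      constructor
      · intro hx
        have h9 := Finset.mem_inter.1 hx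
        exact Finset.mem_filter.2 ⟨h9.2, (hmn a x).1 h9.1⟩
      · intro hx
        have h9 := Finset.mem_filter.1 hx
        exact Finset.mem_inter.2 ⟨(hmn a x).2 h9.2, h9.1⟩
    have h2 : ∀ o ∈ O, (nb o ∩ K).card = ∑ a ∈ K, if G.Adj a o then 1 else 0 := by
      intro o _
      rw [← Finset.card_filter]
      congr 1
      ext x
      constructor
      · intro hx
        have h9 := Finset.mem_inter.1 hx
        exact Finset.mem_filter.2 ⟨h9.2, ((hmn o x).1 h9.1).symm⟩
      · intro hx
        have h9 := Finset.mem_filter.1 hx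
        exact Finset.mem_inter.2 ⟨(hmn o x).2 h9.2.symm, h9.1⟩
    rw [Finset.sum_congr rfl h1, Finset.sum_congr rfl h2, Finset.sum_comm]
  have hup : ∑ o ∈ O, (nb o ∩ K).card ≤ ∑ o ∈ O, f o := Finset.sum_le_sum hle2
  have hlow : ∑ a ∈ K, 1 ≤ ∑ a ∈ K, (nb a ∩ O).card := Finset.sum_le_sum hge
  have hK1 : ∑ a ∈ K, 1 = j := by rw [Finset.sum_const, smul_eq_mul, mul_one, hKc]
  have heqK : ∀ a ∈ K, 1 = (nb a ∩ O).card := by
    refine (Finset.sum_eq_sum_iff_of_le hge).1 ?_
    omega
  have heqO : ∀ o ∈ O, (nb o ∩ K).card = f o := by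
    refine (Finset.sum_eq_sum_iff_of_le hle2).1 ?_
    omega
  have hOK : ∀ o ∈ O, nb o ⊆ K := by
    intro o ho
    have h1 : nb o ∩ K = nb o := Finset.eq_of_subset_of_card_le Finset.inter_subset_left (by
      rw [heqO o ho, hnbc])
    rw [← h1]
    exact Finset.inter_subset_right
  have hfull : ∀ a ∈ K, nb a \ O = (Finset.univ \ O).erase a := by
    intro a ha
    refine Finset.eq_of_subset_of_card_le (hsub a ha) ?_
    have h2 := hec a ha
    have h3 := hsplit a
    have h4 := (hmK a).1 ha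
    have h5 := heqK a ha
    omega
  refine ⟨hjD, ⟨?_, ?_, ?_⟩, ?_, ?_⟩
  · intro o ho o' ho' hadj
    have h1 := hOK o ((hmO o).2 ho) ((hmn o o').2 hadj)
    rw [hmK] at h1
    have h2 : f o' < j := ho'
    omega
  · rintro x hx ⟨o, ho, hadj⟩ w hw hwx
    have h1 := hOK o ((hmO o).2 ho) ((hmn o x).2 hadj.symm)
    have h2 : w ∈ (Finset.univ \ O).erase x := by
      rw [Finset.mem_erase, Finset.mem_sdiff, hmO]
      exact ⟨hwx, Finset.mem_univ _, hw⟩
    rw [← hfull x h1, Finset.mem_sdiff, hmn] at h2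
    exact h2.1
  · intro x hx o ho o' ho' h1 h2
    have h3 := hOK o ((hmO o).2 ho) ((hmn o x).2 h1.symm)
    have h4 := heqK x h3
    obtain ⟨c, hc⟩ := Finset.card_eq_one.1 h4.symm
    have h5 : o ∈ nb x ∩ O := Finset.mem_inter.2 ⟨(hmn x o).2 h1, (hmO o).2 ho⟩
    have h6 : o' ∈ nb x ∩ O := Finset.mem_inter.2 ⟨(hmn x o').2 h2, (hmO o').2 ho'⟩
    rw [hc, Finset.mem_singleton] at h5 h6
    rw [h5, h6]
  · intro a ha
    have h1 := hge a ((hmK a).2 ha)
    obtain ⟨o, ho⟩ := Finset.card_pos.1 h1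
    rw [Finset.mem_inter, hmn, hmO] at ho
    exact ⟨o, ho.2, ho.1⟩
  · intro o ho x hadj
    exact (hmK x).1 (hOK o ((hmO o).2 ho) ((hmn o x).2 hadj))

end Pool.Agent.MP_6e0dc6_co.Leaf2
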