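import Pool.Agent.Lib.MP_6e0dc6_co.Leaf2.PM
import Pool.Agent.Lib.MP_6e0dc6_co.Leaf2.Cnt

/-! Board LF, module Build: the perfect matching. O = {f < j}, K = {f = D}, R = {j <= f < D} (num_struct: j <= D). Let H be the graph induced
by G on R; its degrees are f - j (x in R is adjacent to all j vertices of K and to nobody in O). MissAtMost gives a matching of H which misses a set U,
|U| <= j - t, t = |O|. Choose for each o in O a neighbour g o (f o >= 1), g o in K, g injective on O (uniq). K' = K - g(O) has j - t vertices; choose an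
injection U -> K' with image K'' (all edges K-R are there). The rest K' - K'' is a clique; its number of vertices is even because card V is
even. Use On.of_inj, On.union, On.clique and for the matching of H: the involution of M.IsMatching. -/

set_option autoImplicit false

namespace Pool.Agent.MP_6e0dc6_co.Leaf2

variable {V : Type*} [Fintype V] [DecidableEq V]

omit [Fintype V] [DecidableEq V] in
/-- a matching of the graph induced on a subtype gives a matching on its vertices -/
private theorem on_of_sub {G : SimpleGraph V} {q : V → Prop}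
    {M : (G.comap (Subtype.val : {i // q i} → V)).Subgraph} (hM : M.IsMatching) (W : Finset V)
    (hW : ∀ v, v ∈ W ↔ ∃ a : {i // q i}, a ∈ M.verts ∧ a.1 = v) : On G W := by
  classical
  have hex : ∀ v, v ∈ W → ∃ w : V, ∃ (a b : {i // q i}), M.Adj a b ∧ a.1 = v ∧ b.1 = w := by
    intro v hv
    obtain ⟨a, ha, rfl⟩ := (hW v).1 hv
    obtain ⟨b, hb, -⟩ := hM ha
    exact ⟨b.1, a, b, hb, rfl, rfl⟩
  choose! m hm using hex
  refine ⟨m, fun v hv => ?_⟩
  obtain ⟨a, b, hab, rfl, hb⟩ := hm v hv
  have hbW : m a.1 ∈ W := (hW _).2 ⟨b, M.edge_vert hab.symm, hb⟩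
  refine ⟨hbW, ?_, ?_⟩
  · obtain ⟨a', b', hab', ha', hb'⟩ := hm _ hbW
    have h1 : a' = b := Subtype.ext (ha'.trans hb.symm)
    rw [h1] at hab'
    have h2 : b' = a := hM.eq_of_adj_left hab' hab.symm
    rw [← hb', h2]
  · have := hab.adj_sub
    rw [SimpleGraph.comap_adj] at this
    rw [← hb]
    exact this

theorem mat_of_cond {f : V → ℕ} (hev : Even (Fintype.card V)) (hc : CondC f) {G : SimpleGraph V}
    (hG : Rz f G) : Mat G := by
  classical
  obtain ⟨j, D, hN, hM⟩ := hc
  rcases isEmpty_or_nonempty V with hV | hV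
  · exact ⟨id, fun v => (hV.false v).elim⟩
  obtain ⟨hjD, hS, hK, hOK⟩ := num_struct hV hN hG
  have hadjK : ∀ x, f x = D → ∀ w, j ≤ f w → w ≠ x → G.Adj x w := by
    intro x hx w hw hne
    obtain ⟨o, ho, hxo⟩ := hK x hx
    refine hS.full x ?_ ⟨o, ho, hxo⟩ w ?_ hne
    · show ¬ f x < j
      omega
    · show ¬ f w < j
      omega
  -- degrees of the induced graph
  have hdeg : ∀ a : {i // j ≤ f i ∧ f i < D},
      ((G.comap (Subtype.val : {i // j ≤ f i ∧ f i < D} → V)).neighborSet a).ncard = f a - j := by
    intro a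
    have h1 : G.neighborSet a.1 = (Subtype.val ''
        ((G.comap (Subtype.val : {i // j ≤ f i ∧ f i < D} → V)).neighborSet a)) ∪ {i | f i = D} := by
      ext x
      simp only [SimpleGraph.mem_neighborSet, Set.mem_union, Set.mem_image, Set.mem_ofPred_eq,
        SimpleGraph.comap_adj, Subtype.exists, exists_and_right, exists_eq_right]
      constructor
      · intro hax
        by_cases hxD : f x = D
        · exact Or.inr hxD
        · refine Or.inl ⟨⟨?_, ?_⟩, hax⟩
          · by_contra hlt
            have := hOK x (by omega) a.1 hax.symm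
            have := a.2.2
            omega
          · have := hN.le x
            omega
      · rintro (⟨-, hax⟩ | hxD)
        · exact hax
        · refine (hadjK x hxD a.1 a.2.1 ?_).symm
          intro he
          have := a.2.2
          rw [he] at this
          omega
    have h2 : Disjoint (Subtype.val ''
        ((G.comap (Subtype.val : {i // j ≤ f i ∧ f i < D} → V)).neighborSet a)) {i | f i = D} := by
      rw [Set.disjoint_left]
      rintro _ ⟨b, -, rfl⟩ hb
      have := b.2.2
      simp only [Set.mem_ofPred_eq] at hb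
      omega
    have h3 := hG a.1
    rw [h1, Set.ncard_union_eq h2 (Set.toFinite _) (Set.toFinite _),
      Set.ncard_image_of_injective _ Subtype.val_injective, hN.top] at h3
    omega
  obtain ⟨M, hMm, hMc⟩ := hM _ hdeg
  obtain ⟨Of, hOf⟩ : ∃ Of : Finset V, ∀ v, v ∈ Of ↔ f v < j :=
    ⟨Finset.univ.filter fun v => f v < j, by simp⟩
  obtain ⟨Kf, hKf⟩ : ∃ Kf : Finset V, ∀ v, v ∈ Kf ↔ f v = D :=
    ⟨Finset.univ.filter fun v => f v = D, by simp⟩
  obtain ⟨W, hW⟩ : ∃ W : Finset V, ∀ v, v ∈ W ↔
      ∃ a : {i // j ≤ f i ∧ f i < D}, a ∈ M.verts ∧ a.1 = v :=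
    ⟨(Set.toFinite (Subtype.val '' M.verts)).toFinset, by
      intro v; rw [Set.Finite.mem_toFinset]; exact Iff.rfl⟩
  obtain ⟨U, hU⟩ : ∃ U : Finset V, ∀ v, v ∈ U ↔
      ∃ a : {i // j ≤ f i ∧ f i < D}, a ∉ M.verts ∧ a.1 = v :=
    ⟨(Set.toFinite (Subtype.val '' M.vertsᶜ)).toFinset, by
      intro v; rw [Set.Finite.mem_toFinset]; exact Iff.rfl⟩
  have hOc : Of.card = {i | f i < j}.ncard := by
    rw [← Set.ncard_coe_finset]
    congr 1
    ext v
    exact hOf v
  have hKc : Kf.card = j := by
    rw [← hN.top, ← Set.ncard_coe_finset]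
    congr 1
    ext v
    exact hKf v
  have hUc : U.card ≤ j - Of.card := by
    rw [hOc, ← Set.ncard_coe_finset]
    refine le_trans (le_of_eq ?_) hMc
    rw [← Set.ncard_image_of_injective _ Subtype.val_injective]
    congr 1
    ext v
    exact hU v
  have hWev : Even W.card := by
    have h1 := hMm.even_card
    have h2 : W.card = M.verts.toFinset.card := by
      rw [← Set.ncard_eq_toFinset_card', ← Set.ncard_coe_finset,
        ← Set.ncard_image_of_injective _ Subtype.val_injective]
      congr 1
      ext v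
      exact hW v
    rw [h2]
    exact h1
  have hWR : ∀ v ∈ W, j ≤ f v ∧ f v < D := fun v hv => by
    obtain ⟨a, -, rfl⟩ := (hW v).1 hv
    exact a.2
  have hUR : ∀ v ∈ U, j ≤ f v ∧ f v < D := fun v hv => by
    obtain ⟨a, -, rfl⟩ := (hU v).1 hv
    exact a.2
  have hWU : ∀ v, v ∈ W → v ∉ U := fun v hv hv' => by
    obtain ⟨a, ha, rfl⟩ := (hW v).1 hv
    obtain ⟨b, hb, he⟩ := (hU _).1 hv'
    exact hb (by rwa [Subtype.ext he])
  have hRWU : ∀ v, j ≤ f v → f v < D → v ∈ W ∨ v ∈ U := fun v h1 h2 => by
    by_cases h : (⟨v, h1, h2⟩ : {i // j ≤ f i ∧ f i < D}) ∈ M.verts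
    · exact Or.inl ((hW v).2 ⟨_, h, rfl⟩)
    · exact Or.inr ((hU v).2 ⟨_, h, rfl⟩)
  -- neighbours of `O`
  have hex : ∀ o, f o < j → ∃ x, G.Adj o x := by
    intro o _
    have h1 := hG o
    have h2 := hN.pos o
    obtain ⟨x, hx⟩ := Set.nonempty_of_ncard_ne_zero (s := G.neighborSet o) (by omega)
    exact ⟨x, hx⟩
  choose! g hg using hex
  have hgD : ∀ o, f o < j → f (g o) = D := fun o ho => hOK o ho _ (hg o ho)
  have hginj : Set.InjOn g Of := by
    intro o ho o' ho' he
    have h1 := (hOf o).1 ho
    have h2 := (hOf o').1 ho'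
    refine hS.uniq (g o) ?_ o h1 o' h2 (hg o h1).symm ?_
    · show ¬ f (g o) < j
      rw [hgD o h1]
      omega
    · rw [he]
      exact (hg o' h2).symm
  have on1 : On G (Of ∪ Of.image g) := On.of_inj g hginj fun a ha => by
    have h1 := (hOf a).1 ha
    refine ⟨hg a h1, fun h2 => ?_⟩
    have h3 := (hOf _).1 h2
    rw [hgD a h1] at h3
    omega
  have hgK : Of.image g ⊆ Kf := by
    intro x hx
    obtain ⟨o, ho, rfl⟩ := Finset.mem_image.1 hx
    exact (hKf _).2 (hgD o ((hOf o).1 ho))
  have hgc : (Of.image g).card = Of.card := Finset.card_image_of_injOn hginj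
  have hK'c : (Kf \ Of.image g).card = j - Of.card := by
    rw [Finset.card_sdiff_of_subset hgK, hKc, hgc]
  have hemb : Nonempty (U ↪ (Kf \ Of.image g : Finset V)) := by
    refine Function.Embedding.nonempty_of_card_le ?_
    rw [Fintype.card_coe, Fintype.card_coe, hK'c]
    exact hUc
  obtain ⟨e⟩ := hemb
  obtain ⟨g2, hg2⟩ : ∃ g2 : V → V, ∀ (v : V) (hv : v ∈ U), g2 v = (e ⟨v, hv⟩ : V) :=
    ⟨fun v => if h : v ∈ U then (e ⟨v, h⟩ : V) else v, fun v hv => dif_pos hv⟩
  have hg2m : ∀ v ∈ U, g2 v ∈ Kf ∧ g2 v ∉ Of.image g := fun v hv => by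
    have h1 := (e ⟨v, hv⟩).2
    rw [Finset.mem_sdiff, ← hg2 v hv] at h1
    exact h1
  have hg2inj : Set.InjOn g2 U := by
    intro v hv v' hv' he
    rw [hg2 v hv, hg2 v' hv'] at he
    have := e.injective (Subtype.ext he)
    exact congrArg Subtype.val this
  have on3 : On G (U ∪ U.image g2) := On.of_inj g2 hg2inj fun a ha => by
    have h1 := hUR a ha
    have h2 := (hKf _).1 (hg2m a ha).1
    refine ⟨(hadjK _ h2 a h1.1 ?_).symm, fun h3 => ?_⟩
    · intro h4
      rw [← h4] at h2
      omega
    · have := hUR _ h3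
      omega
  have on2 : On G W := on_of_sub hMm W hW
  have c1 : (Of ∪ Of.image g).card = 2 * Of.card := by
    rw [Finset.card_union_of_disjoint, hgc]
    · omega
    · rw [Finset.disjoint_left]
      intro x h1 h2
      have h3 := (hOf x).1 h1
      have h4 := (hKf x).1 (hgK h2)
      omega
  have c3 : (U ∪ U.image g2).card = 2 * U.card := by
    rw [Finset.card_union_of_disjoint, Finset.card_image_of_injOn hg2inj]
    · omega
    · rw [Finset.disjoint_left]
      intro x h1 h2
      obtain ⟨v, hv, rfl⟩ := Finset.mem_image.1 h2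
      have h3 := hUR _ h1
      have h4 := (hKf _).1 (hg2m v hv).1
      omega
  have d12 : Disjoint (Of ∪ Of.image g) W := by
    rw [Finset.disjoint_left]
    intro x h1 h2
    have h3 := hWR x h2
    rcases Finset.mem_union.1 h1 with h4 | h4
    · have := (hOf x).1 h4
      omega
    · have := (hKf x).1 (hgK h4)
      omega
  have d3 : Disjoint ((Of ∪ Of.image g) ∪ W) (U ∪ U.image g2) := by
    rw [Finset.disjoint_left]
    intro x h1 h2
    rcases Finset.mem_union.1 h2 with h5 | h5
    · have h6 := hUR x h5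
      rcases Finset.mem_union.1 h1 with h3 | h3
      · rcases Finset.mem_union.1 h3 with h4 | h4
        · have := (hOf x).1 h4
          omega
        · have := (hKf x).1 (hgK h4)
          omega
      · exact hWU x h3 h5
    · obtain ⟨v, hv, rfl⟩ := Finset.mem_image.1 h5
      have h6 := hg2m v hv
      have h7 := (hKf _).1 h6.1
      rcases Finset.mem_union.1 h1 with h3 | h3
      · rcases Finset.mem_union.1 h3 with h4 | h4
        · have := (hOf _).1 h4
          omega
        · exact h6.2 h4
      · have := hWR _ h3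
        omega
  have d4 : Disjoint (((Of ∪ Of.image g) ∪ W) ∪ (U ∪ U.image g2))
      (Kf \ (Of.image g ∪ U.image g2)) := by
    rw [Finset.disjoint_left]
    intro x h1 h2
    rw [Finset.mem_sdiff, Finset.mem_union, not_or] at h2
    have h7 := (hKf x).1 h2.1
    rcases Finset.mem_union.1 h1 with h3 | h3
    · rcases Finset.mem_union.1 h3 with h4 | h4
      · rcases Finset.mem_union.1 h4 with h5 | h5
        · have := (hOf x).1 h5
          omega
        · exact h2.2.1 h5
      · have := hWR x h4
        omega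
    · rcases Finset.mem_union.1 h3 with h4 | h4
      · have := hUR x h4
        omega
      · exact h2.2.2 h4
  have hall : (((Of ∪ Of.image g) ∪ W) ∪ (U ∪ U.image g2)) ∪
      (Kf \ (Of.image g ∪ U.image g2)) = Finset.univ := by
    rw [Finset.eq_univ_iff_forall]
    intro x
    simp only [Finset.mem_union, Finset.mem_sdiff]
    by_cases h1 : f x < j
    · have := (hOf x).2 h1
      tauto
    by_cases h2 : f x = D
    · have := (hKf x).2 h2
      tauto
    · have h3 := hN.le x
      rcases hRWU x (by omega) (by omega) with h | h <;> tauto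
  have hcard := congrArg Finset.card hall
  rw [Finset.card_univ, Finset.card_union_of_disjoint d4, Finset.card_union_of_disjoint d3,
    Finset.card_union_of_disjoint d12, c1, c3] at hcard
  have on4 : On G (Kf \ (Of.image g ∪ U.image g2)) := by
    refine On.clique ?_ fun a ha b hb hne => ?_
    · rw [Nat.even_iff] at hev hWev ⊢
      omega
    · have h1 := (hKf a).1 (Finset.mem_sdiff.1 ha).1
      have h2 := (hKf b).1 (Finset.mem_sdiff.1 hb).1
      exact hadjK a h1 b (by omega) hne.symm
  have := On.union (On.union (On.union on1 on2 d12) on3 d3) on4 d4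
  rw [hall] at this
  exact this.mat

end Pool.Agent.MP_6e0dc6_co.Leaf2
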