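import Pool.Agent.Lib.MP_6e0dc6_co.Leaf2.SOne

/-! Board LF, module CaseA. Two leaves at non-adjacent vertices. -/

set_option autoImplicit false

namespace Pool.Agent.MP_6e0dc6_co.Leaf2

variable {V : Type*} [Fintype V] [DecidableEq V]

omit [DecidableEq V] in
private lemma sw {f : V → ℕ} {G : SimpleGraph V} (hG : Rz f G) {a x b y : V} (hax : G.Adj a x)
    (hby : G.Adj b y) (hay : ¬ G.Adj a y) (hbx : ¬ G.Adj b x) (h1 : a ≠ y) (h2 : b ≠ x) :
    ∃ G' : SimpleGraph V, Rz f G' ∧ G'.Adj a y ∧ G'.Adj b x ∧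
      (∀ u w, G.Adj u w → ¬ (u = a ∧ w = x) → ¬ (u = x ∧ w = a) → ¬ (u = b ∧ w = y) →
        ¬ (u = y ∧ w = b) → G'.Adj u w) ∧
      ∀ u w, G'.Adj u w → G.Adj u w ∨ (u = a ∧ w = y) ∨ (u = y ∧ w = a) ∨ (u = b ∧ w = x) ∨
        (u = x ∧ w = b) := by
  obtain ⟨G', e1, e2⟩ := switch G hax hby hay hbx h1 h2
  refine ⟨G', fun v => (e1 v).trans (hG v), (e2 _ _).2 (Or.inr (Or.inl rfl)),
    (e2 _ _).2 (Or.inr (Or.inr rfl)), fun u w h k1 k2 k3 k4 => (e2 _ _).2 (Or.inl ⟨h, ?_, ?_⟩),
    fun u w h => ?_⟩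
  · rw [Ne, Sym2.eq_iff]
    rintro (h5 | h5)
    · exact k1 h5
    · exact k2 h5
  · rw [Ne, Sym2.eq_iff]
    rintro (h5 | h5)
    · exact k3 h5
    · exact k4 h5
  · rcases (e2 u w).1 h with h5 | h5 | h5
    · exact Or.inl h5.1
    · rw [Sym2.eq_iff] at h5
      rcases h5 with h5 | h5
      · exact Or.inr (Or.inl h5)
      · exact Or.inr (Or.inr (Or.inl h5))
    · rw [Sym2.eq_iff] at h5
      rcases h5 with h5 | h5
      · exact Or.inr (Or.inr (Or.inr (Or.inl h5)))
      · exact Or.inr (Or.inr (Or.inr (Or.inr h5)))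

omit [DecidableEq V] in
private lemma card_of_compl {f : V → ℕ} {G : SimpleGraph V} (hG : Rz f G) {i u w : V}
    (h : (G.neighborSet i)ᶜ = {i, u, w}) (h1 : i ≠ u) (h2 : i ≠ w) (h3 : u ≠ w) :
    f i + 3 = Fintype.card V := by
  have e1 := Set.ncard_add_ncard_compl (G.neighborSet i)
  have e2 : ({i, u, w} : Set V).ncard = 3 := Set.ncard_eq_three.2 ⟨i, u, w, h1, h2, h3, rfl⟩
  rw [h, e2, hG i, Nat.card_eq_fintype_card] at e1
  exact e1

theorem caseA {f : V → ℕ} (hf : Forc f) {G : SimpleGraph V} (hG : Rz f G) (hT : TII f G)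
    {a b la lb : V} (hla : f la = 1) (hlb : f lb = 1) (hne : la ≠ lb) (h1 : G.Adj la a)
    (h2 : G.Adj lb b) (hab : a ≠ b) (hnab : ¬ G.Adj a b) :
    (∀ i, f i = 1 ∨ f i + 3 = Fintype.card V) ∧ {i | f i = 1}.ncard = 2 := by
  have hfa : f a ≠ 1 := hT la a hla h1
  have hfb : f b ≠ 1 := hT lb b hlb h2
  have nla : (G.neighborSet la).ncard = 1 := (hG la).trans hla
  have nlb : (G.neighborSet lb).ncard = 1 := (hG lb).trans hlb
  have ua : ∀ v, G.Adj la v → v = a := fun v hv => leaf_unique nla hv h1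
  have ub : ∀ v, G.Adj lb v → v = b := fun v hv => leaf_unique nlb hv h2
  have hlab : la ≠ b := fun h => hfb (h ▸ hla)
  have hlba : lb ≠ a := fun h => hfa (h ▸ hlb)
  have hlaa : la ≠ a := h1.ne
  have hlbb : lb ≠ b := h2.ne
  have nalb : ¬ G.Adj a lb := fun h => hab (ub a h.symm)
  have nbla : ¬ G.Adj b la := fun h => hab (ua b h.symm).symm
  -- the other neighbours of a and b agree
  have hRb : ∀ x, G.Adj a x → x ≠ la → G.Adj b x ∧ x ≠ lb ∧ x ≠ a ∧ x ≠ b := by
    intro x hx hxl
    have hxb : x ≠ b := fun h => hnab (h ▸ hx)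
    exact ⟨sOne hf hG hlb hla hne.symm h1 h2 hfa hx hxl hxb, fun h => nalb (h ▸ hx), hx.ne', hxb⟩
  have hRa : ∀ x, G.Adj b x → x ≠ lb → G.Adj a x ∧ x ≠ la := by
    intro x hx hxl
    have hxa : x ≠ a := fun h => hnab (h ▸ hx).symm
    exact ⟨sOne hf hG hla hlb hne h2 h1 hfb hx hxl hxa, fun h => nbla (h ▸ hx)⟩
  have hfx : ∀ x, G.Adj a x → x ≠ la → f x ≠ 1 := by
    intro x hx hxl h
    exact hab (leaf_unique ((hG x).trans h) hx.symm (hRb x hx hxl).1.symm)
  -- the neighbourhoods of the common neighbours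
  have hN : ∀ x, G.Adj a x → x ≠ la →
      (∀ y, G.Adj x y → y ≠ a → y ≠ b → G.Adj a y ∧ y ≠ la) ∧
      ∀ y, G.Adj a y → y ≠ la → y ≠ x → G.Adj x y := by
    intro x hx hxl
    obtain ⟨hbx, hxlb, hxa, hxb⟩ := hRb x hx hxl
    have nxla : ¬ G.Adj x la := fun h => hxa (ua x h.symm)
    have nxlb : ¬ G.Adj x lb := fun h => hxb (ub x h.symm)
    obtain ⟨G', hG', e1, e2, e3, e4⟩ := sw hG h1.symm hbx.symm hnab nxla hab hxl
    have hlb' : G'.Adj lb b := e3 lb b h2 (fun h => hlba h.1) (fun h => hne h.1.symm)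
      (fun h => hxlb h.1.symm) (fun h => hlbb h.1)
    constructor
    · intro y hy hya hyb
      have hyla : y ≠ la := fun h => nxla (h ▸ hy)
      have hylb : y ≠ lb := fun h => nxlb (h ▸ hy)
      have hy' : G'.Adj x y := e3 x y hy (fun h => hxa h.1) (fun h => hxl h.1)
        (fun h => hyb h.2) (fun h => hxb h.1)
      have h3 : G'.Adj b y := sOne hf hG' hlb hla hne.symm e2.symm hlb' (hfx x hx hxl) hy' hyla hyb
      have h4 : G.Adj b y := by
        rcases e4 b y h3 with h | h | h | h | h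
        · exact h
        · exact absurd h.1.symm hab
        · exact absurd h.2 hya
        · exact absurd h.2 hyla
        · exact absurd h.1.symm hlab
      exact hRa y h4 hylb
    · intro y hy hyla hyx
      obtain ⟨hby, hylb, hya, hyb⟩ := hRb y hy hyla
      have hy' : G'.Adj b y := e3 b y hby (fun h => hab h.1.symm) (fun h => hlab h.1.symm)
        (fun h => hxb h.1.symm) (fun h => hyx h.2)
      have h3 : G'.Adj x y := sOne hf hG' hla hlb hne hlb' e2.symm hfb hy' hylb hyx
      rcases e4 x y h3 with h | h | h | h | h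
      · exact h
      · exact absurd h.1 hxa
      · exact absurd h.1 hxb
      · exact absurd h.2 hyla
      · exact absurd h.1 hxl
  -- there is a common neighbour
  obtain ⟨x₀, hx₀, hx₀l⟩ : ∃ x, G.Adj a x ∧ x ≠ la := by
    by_contra hcon
    push Not at hcon
    apply hfa
    rw [← hG a]
    have : G.neighborSet a = {la} := by
      ext v
      exact ⟨fun hv => hcon v hv, fun hv => by
        rw [Set.mem_singleton_iff] at hv
        rw [hv]
        exact h1.symm⟩
    rw [this, Set.ncard_singleton]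
  -- nothing else
  have hall : ∀ v, v = a ∨ v = b ∨ v = la ∨ v = lb ∨ (G.Adj a v ∧ v ≠ la) := by
    by_contra hcon
    push Not at hcon
    obtain ⟨z, hza, hzb, hzla, hzlb, hzR⟩ := hcon
    have out : ∀ z, z ≠ a → z ≠ b → z ≠ la → z ≠ lb → (G.Adj a z → z = la) → ∀ z', G.Adj z z' →
        z' ≠ a ∧ z' ≠ b ∧ z' ≠ la ∧ z' ≠ lb ∧ (G.Adj a z' → z' = la) := by
      intro z hza hzb hzla hzlb hzR z' hz'
      have k3 : z' ≠ la := fun h => hza (ua z (h ▸ hz').symm)
      refine ⟨fun h => hzla (hzR (h ▸ hz').symm),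
        fun h => hzla (hzR (hRa z (h ▸ hz').symm hzlb).1), k3,
        fun h => hzb (ub z (h ▸ hz').symm), fun h => ?_⟩
      by_contra h5
      exact hzla (hzR (((hN z' h h5).1 z hz'.symm hza hzb)).1)
    have key : ∀ z z', z ≠ a → z ≠ b → z ≠ la → z ≠ lb → (G.Adj a z → z = la) → G.Adj z z' →
        f z ≠ 1 → False := by
      intro z z' hza hzb hzla hzlb hzR hzz hfz
      obtain ⟨k1, k2, k3, k4, k5⟩ := out z hza hzb hzla hzlb hzR z' hzz
      have nzla : ¬ G.Adj z la := fun h => hza (ua z h.symm)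
      have naz' : ¬ G.Adj a z' := fun h => k3 (k5 h)
      obtain ⟨G', hG', e1, e2, e3, e4⟩ := sw hG h1.symm hzz naz' nzla k1.symm hzla
      obtain ⟨hbx, hxlb, hxa, hxb⟩ := hRb x₀ hx₀ hx₀l
      have hlb' : G'.Adj lb b := e3 lb b h2 (fun h => hlba h.1) (fun h => hne h.1.symm)
        (fun h => hzlb h.1.symm) (fun h => k4 h.1.symm)
      have hxz : x₀ ≠ z := fun h => hzla (hzR (h ▸ hx₀))
      have hx' : G'.Adj b x₀ := e3 b x₀ hbx (fun h => hab h.1.symm) (fun h => hlab h.1.symm)
        (fun h => hzb h.1.symm) (fun h => k2 h.1.symm)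
      have h3 : G'.Adj z x₀ := sOne hf hG' hla hlb hne hlb' e2.symm hfb hx' hxlb hxz
      have h4 : G.Adj z x₀ := by
        rcases e4 z x₀ h3 with h | h | h | h | h
        · exact h
        · exact absurd h.1 hza
        · exact absurd h.2 hxa
        · exact absurd h.2 hx₀l
        · exact absurd h.1 hzla
      exact hzla (hzR ((hN x₀ hx₀ hx₀l).1 z h4.symm hza hzb).1)
    obtain ⟨m, hm⟩ := hf G hG
    have hzz := (hm z).2
    by_cases hfz : f z = 1
    · obtain ⟨k1, k2, k3, k4, k5⟩ := out z hza hzb hzla hzlb hzR _ hzz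
      exact key _ _ k1 k2 k3 k4 k5 hzz.symm (hT z _ hfz hzz)
    · exact key _ _ hza hzb hzla hzlb hzR hzz hfz
  -- the degrees
  have ca : f a + 3 = Fintype.card V := by
    refine card_of_compl hG (u := b) (w := lb) ?_ hab hlba.symm hlbb.symm
    ext v
    simp only [Set.mem_compl_iff, SimpleGraph.mem_neighborSet, Set.mem_insert_iff,
      Set.mem_singleton_iff]
    constructor
    · intro hv
      rcases hall v with h | h | h | h | h
      · exact Or.inl h
      · exact Or.inr (Or.inl h)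
      · exact absurd (h ▸ h1.symm) hv
      · exact Or.inr (Or.inr h)
      · exact absurd h.1 hv
    · rintro (h | h | h)
      · rw [h]; exact G.loopless.irrefl a
      · rw [h]; exact hnab
      · rw [h]; exact nalb
  have cb : f b + 3 = Fintype.card V := by
    refine card_of_compl hG (u := a) (w := la) ?_ hab.symm hlab.symm hlaa.symm
    ext v
    simp only [Set.mem_compl_iff, SimpleGraph.mem_neighborSet, Set.mem_insert_iff,
      Set.mem_singleton_iff]
    constructor
    · intro hv
      rcases hall v with h | h | h | h | h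
      · exact Or.inr (Or.inl h)
      · exact Or.inl h
      · exact Or.inr (Or.inr h)
      · exact absurd (h ▸ h2.symm) hv
      · exact absurd (hRb v h.1 h.2).1 hv
    · rintro (h | h | h)
      · rw [h]; exact G.loopless.irrefl b
      · rw [h]; exact fun h' => hnab h'.symm
      · rw [h]; exact nbla
  have cx : ∀ x, G.Adj a x → x ≠ la → f x + 3 = Fintype.card V := by
    intro x hx hxl
    obtain ⟨hbx, hxlb, hxa, hxb⟩ := hRb x hx hxl
    refine card_of_compl hG (u := la) (w := lb) ?_ hxl hxlb hne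
    ext v
    simp only [Set.mem_compl_iff, SimpleGraph.mem_neighborSet, Set.mem_insert_iff,
      Set.mem_singleton_iff]
    constructor
    · intro hv
      rcases hall v with h | h | h | h | h
      · exact absurd (h ▸ hx.symm) hv
      · exact absurd (h ▸ hbx.symm) hv
      · exact Or.inr (Or.inl h)
      · exact Or.inr (Or.inr h)
      · by_cases hvx : v = x
        · exact Or.inl hvx
        · exact absurd ((hN x hx hxl).2 v h.1 h.2 hvx) hv
    · rintro (h | h | h)
      · rw [h]; exact G.loopless.irrefl x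
      · rw [h]; exact fun h' => hxa (ua x h'.symm)
      · rw [h]; exact fun h' => hxb (ub x h'.symm)
  constructor
  · intro i
    rcases hall i with h | h | h | h | h
    · right; rw [h]; exact ca
    · right; rw [h]; exact cb
    · left; rw [h]; exact hla
    · left; rw [h]; exact hlb
    · right; exact cx i h.1 h.2
  · have : {i | f i = 1} = {la, lb} := by
      ext v
      simp only [Set.mem_ofPred_eq, Set.mem_insert_iff, Set.mem_singleton_iff]
      constructor
      · intro hv
        rcases hall v with h | h | h | h | h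
        · exact absurd (h ▸ hv) hfa
        · exact absurd (h ▸ hv) hfb
        · exact Or.inl h
        · exact Or.inr h
        · exact absurd hv (hfx v h.1 h.2)
      · rintro (h | h)
        · rw [h]; exact hla
        · rw [h]; exact hlb
    rw [this, Set.ncard_pair hne]

end Pool.Agent.MP_6e0dc6_co.Leaf2
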