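import Pool.Agent.Lib.MP_6e0dc6_co.Leaf2.SOne

/-! Board LF, module CaseB: all supports (neighbours of leaves) are pairwise adjacent. -/

set_option autoImplicit false

namespace Pool.Agent.MP_6e0dc6_co.Leaf2

variable {V : Type*} [Fintype V] [DecidableEq V]

theorem caseB {f : V → ℕ} (hf : Forc f) {G : SimpleGraph V} (hG : Rz f G) (hT : TII f G)
    {l0 l1 : V} (hl0 : f l0 = 1) (hl1 : f l1 = 1) (hne : l0 ≠ l1)
    (hS : ∀ l l' a b, f l = 1 → f l' = 1 → G.Adj l a → G.Adj l' b → a ≠ b → G.Adj a b) :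
    ∃ O : Set V, l0 ∈ O ∧ l1 ∈ O ∧ Struct G O := by
  classical
  obtain ⟨S, hSdef⟩ : ∃ S : V → Prop, ∀ s, S s ↔ ∃ l, f l = 1 ∧ G.Adj l s :=
    ⟨fun s => ∃ l, f l = 1 ∧ G.Adj l s, fun _ => Iff.rfl⟩
  have hM : Mat G := hf G hG
  have hdeg : ∀ l, f l = 1 → (G.neighborSet l).ncard = 1 := fun l hl => (hG l).trans hl
  have hnb : ∀ l, f l = 1 → ∃ s, G.Adj l s := by
    intro l hl
    obtain ⟨s, hs⟩ := Set.ncard_eq_one.1 (hdeg l hl)
    have h1 : s ∈ G.neighborSet l := by rw [hs]; exact Set.mem_singleton s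
    exact ⟨s, h1⟩
  have hSf : ∀ s, S s → f s ≠ 1 := by
    intro s hs
    obtain ⟨l, hl, hls⟩ := (hSdef s).1 hs
    exact hT l s hl hls
  have hun : ∀ l c c', f l = 1 → G.Adj l c → G.Adj l c' → c = c' :=
    fun l c c' hl h1 h2 => leaf_unique (hdeg l hl) h1 h2
  have hSS : ∀ s t, S s → S t → s ≠ t → G.Adj s t := by
    intro s t hs ht hst
    obtain ⟨l, hl, hls⟩ := (hSdef s).1 hs
    obtain ⟨l', hl', hlt⟩ := (hSdef t).1 ht
    exact hS l l' s t hl hl' hls hlt hst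
  obtain ⟨O, hOdef⟩ : ∃ O : Set V, ∀ v, v ∈ O ↔ (f v = 1 ∨ (¬ S v ∧ ∀ s, S s → ¬ G.Adj v s)) :=
    ⟨{v | f v = 1 ∨ (¬ S v ∧ ∀ s, S s → ¬ G.Adj v s)}, fun _ => Iff.rfl⟩
  have hOf : ∀ w, w ∉ O → f w ≠ 1 := fun w hw h => hw ((hOdef w).2 (Or.inl h))
  have hOn : ∀ o, o ∈ O → f o ≠ 1 → ¬ S o ∧ ∀ s, S s → ¬ G.Adj o s :=
    fun o ho h => ((hOdef o).1 ho).resolve_left h
  have hOS : ∀ o, o ∈ O → ¬ S o := by
    intro o ho hs
    exact (hOn o ho (hSf o hs)).1 hs
  -- the remark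
  have hR : ∀ w, w ∉ O → ∀ s, S s → s ≠ w → G.Adj s w := by
    intro w hw s hs hsw
    have hw1 := hOf w hw
    by_cases hSw : S w
    · exact hSS s w hs hSw hsw
    · have h1 : ∃ s', S s' ∧ G.Adj w s' := by
        by_contra hcon
        push Not at hcon
        exact hw ((hOdef w).2 (Or.inr ⟨hSw, hcon⟩))
      obtain ⟨s', hs', hws'⟩ := h1
      by_cases hss : s' = s
      · rw [← hss]; exact hws'.symm
      · obtain ⟨l, hl, hls⟩ := (hSdef s).1 hs
        obtain ⟨l', hl', hls'⟩ := (hSdef s').1 hs'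
        have hll : l ≠ l' := by
          rintro rfl
          exact hss (hun l _ _ hl hls' hls)
        refine sOne hf hG hl hl' hll hls' hls (hSf s' hs') hws'.symm ?_ hsw.symm
        rintro rfl
        exact hw1 hl'
  -- two supports
  obtain ⟨b0, hb0⟩ := hnb l0 hl0
  obtain ⟨b1, hb1⟩ := hnb l1 hl1
  have hb01 : b0 ≠ b1 := by
    rintro rfl
    exact two_leaves hM (hdeg l0 hl0) (hdeg l1 hl1) hne hb0 hb1
  have hother : ∀ a, ∃ b lb, f lb = 1 ∧ G.Adj lb b ∧ b ≠ a := by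
    intro a
    by_cases h : b0 = a
    · exact ⟨b1, l1, hl1, hb1, fun h' => hb01 (h.trans h'.symm)⟩
    · exact ⟨b0, l0, hl0, hb0, h⟩
  have key : ∀ x o, x ∉ O → o ∈ O → f o ≠ 1 → G.Adj x o →
      (∀ w, w ∉ O → w ≠ x → G.Adj x w) ∧ (∀ o', o' ∈ O → f o' ≠ 1 → G.Adj x o' → o' = o) := by
    intro x o hx ho hfo hxo
    obtain ⟨hoS, hon⟩ := hOn o ho hfo
    have hfx := hOf x hx
    have hxS : ¬ S x := fun h => hon x h hxo.symm
    have h1 : ∃ a, S a ∧ G.Adj x a := by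
      by_contra hcon
      push Not at hcon
      exact hx ((hOdef x).2 (Or.inr ⟨hxS, hcon⟩))
    obtain ⟨a, haS, hxa⟩ := h1
    obtain ⟨la, hla, hlaa⟩ := (hSdef a).1 haS
    obtain ⟨b, lb, hlb, hlbb, hba⟩ := hother a
    have hbS : S b := (hSdef b).2 ⟨lb, hlb, hlbb⟩
    have hfa := hSf a haS
    have hfb := hSf b hbS
    have hbx : b ≠ x := by rintro rfl; exact hxS hbS
    have hax : a ≠ x := by rintro rfl; exact hxS haS
    have hao : a ≠ o := by rintro rfl; exact hoS haS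
    have hbo : b ≠ o := by rintro rfl; exact hoS hbS
    have hxla : x ≠ la := by rintro rfl; exact hfx hla
    have hxlb : x ≠ lb := by rintro rfl; exact hfx hlb
    have hala : a ≠ la := by rintro rfl; exact hfa hla
    have halb : a ≠ lb := by rintro rfl; exact hfa hlb
    have hbla : b ≠ la := by rintro rfl; exact hfb hla
    have hola : o ≠ la := by rintro rfl; exact hfo hla
    have holb : o ≠ lb := by rintro rfl; exact hfo hlb
    have hxo' : x ≠ o := by rintro rfl; exact hx ho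
    have hll : la ≠ lb := by
      rintro rfl
      exact hba (hun la _ _ hla hlbb hlaa)
    have hxb : G.Adj b x := hR x hx b hbS hbx
    obtain ⟨G', hG'd, hG'⟩ := switch G (a := a) (x := la) (b := x) (y := o) hlaa.symm hxo
      (fun h => hon a haS h.symm) (fun h => hax (hun la _ _ hla hlaa h.symm)) hao hxla
    have hGz' : Rz f G' := fun v => (hG'd v).trans (hG v)
    have hlax : G'.Adj la x := (hG' la x).2 (Or.inr (Or.inr Sym2.eq_swap))
    have hlbb' : G'.Adj lb b := by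
      refine (hG' lb b).2 (Or.inl ⟨hlbb, ?_, ?_⟩)
      · intro h
        rcases Sym2.eq_iff.1 h with ⟨h1, _⟩ | ⟨h1, _⟩
        · exact halb h1.symm
        · exact hll h1.symm
      · intro h
        rcases Sym2.eq_iff.1 h with ⟨h1, _⟩ | ⟨h1, _⟩
        · exact hxlb h1.symm
        · exact holb h1.symm
    constructor
    · intro w hw hwx
      have hfw := hOf w hw
      by_cases hwb : w = b
      · rw [hwb]; exact hxb.symm
      have hbw : G.Adj b w := hR w hw b hbS (fun h => hwb h.symm)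
      have hbw' : G'.Adj b w := by
        refine (hG' b w).2 (Or.inl ⟨hbw, ?_, ?_⟩)
        · intro h
          rcases Sym2.eq_iff.1 h with ⟨h1, _⟩ | ⟨h1, _⟩
          · exact hba h1
          · exact hbla h1
        · intro h
          rcases Sym2.eq_iff.1 h with ⟨h1, _⟩ | ⟨h1, _⟩
          · exact hbx h1
          · exact hbo h1
      have h2 : G'.Adj x w := sOne hf hGz' hla hlb hll hlbb' hlax hfb hbw'
        (by rintro rfl; exact hfw hlb) hwx
      rcases (hG' x w).1 h2 with ⟨h3, _, _⟩ | h3 | h3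
      · exact h3
      · rcases Sym2.eq_iff.1 h3 with ⟨h4, _⟩ | ⟨h4, _⟩
        · exact absurd h4.symm hax
        · exact absurd h4 hxo'
      · rcases Sym2.eq_iff.1 h3 with ⟨_, h4⟩ | ⟨h4, _⟩
        · exact absurd (h4 ▸ hla) hfw
        · exact absurd h4 hxla
    · intro o' ho' hfo' hxo2
      by_contra hoo
      obtain ⟨ho'S, ho'n⟩ := hOn o' ho' hfo'
      have hxo3 : G'.Adj x o' := by
        refine (hG' x o').2 (Or.inl ⟨hxo2, ?_, ?_⟩)
        · intro h
          rcases Sym2.eq_iff.1 h with ⟨h1, _⟩ | ⟨h1, _⟩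
          · exact hax h1.symm
          · exact hxla h1
        · intro h
          rcases Sym2.eq_iff.1 h with ⟨_, h1⟩ | ⟨h1, _⟩
          · exact hoo h1
          · exact hxo' h1
      have h2 : G'.Adj b o' := sOne hf hGz' hlb hla hll.symm hlax hlbb' hfx hxo3
        (by rintro rfl; exact hfo' hla) (by rintro rfl; exact ho'S hbS)
      rcases (hG' b o').1 h2 with ⟨h3, _, _⟩ | h3 | h3
      · exact ho'n b hbS h3.symm
      · rcases Sym2.eq_iff.1 h3 with ⟨h4, _⟩ | ⟨h4, _⟩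
        · exact hba h4
        · exact hbo h4
      · rcases Sym2.eq_iff.1 h3 with ⟨h4, _⟩ | ⟨h4, _⟩
        · exact hbx h4
        · exact hbla h4
  refine ⟨O, (hOdef l0).2 (Or.inl hl0), (hOdef l1).2 (Or.inl hl1), ?_, ?_, ?_⟩
  · -- independence
    intro y hy z hz hyz
    by_cases hfy : f y = 1
    · exact hOS z hz ((hSdef z).2 ⟨y, hfy, hyz⟩)
    by_cases hfz : f z = 1
    · exact hOS y hy ((hSdef y).2 ⟨z, hfz, hyz.symm⟩)
    obtain ⟨hyS, hyn⟩ := hOn y hy hfy
    obtain ⟨hzS, hzn⟩ := hOn z hz hfz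
    have haS : S b0 := (hSdef b0).2 ⟨l0, hl0, hb0⟩
    have hbS : S b1 := (hSdef b1).2 ⟨l1, hl1, hb1⟩
    have hfa := hSf b0 haS
    have hfb := hSf b1 hbS
    have hay : b0 ≠ y := by rintro rfl; exact hyS haS
    have haz : b0 ≠ z := by rintro rfl; exact hzS haS
    have hby : b1 ≠ y := by rintro rfl; exact hyS hbS
    have hbz : b1 ≠ z := by rintro rfl; exact hzS hbS
    have hyl0 : y ≠ l0 := by rintro rfl; exact hfy hl0
    have hyl1 : y ≠ l1 := by rintro rfl; exact hfy hl1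
    have hzl1 : z ≠ l1 := by rintro rfl; exact hfz hl1
    have hal1 : b0 ≠ l1 := by rintro rfl; exact hfa hl1
    have hal0 : b0 ≠ l0 := by rintro rfl; exact hfa hl0
    have hbl0 : b1 ≠ l0 := by rintro rfl; exact hfb hl0
    obtain ⟨G', hG'd, hG'⟩ := switch G (a := b0) (x := l0) (b := y) (y := z) hb0.symm hyz
      (fun h => hzn b0 haS h.symm) (fun h => hay (hun l0 _ _ hl0 hb0 h.symm)) haz hyl0
    have hGz' : Rz f G' := fun v => (hG'd v).trans (hG v)
    have hlay : G'.Adj l0 y := (hG' l0 y).2 (Or.inr (Or.inr Sym2.eq_swap))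
    have hlbb' : G'.Adj l1 b1 := by
      refine (hG' l1 b1).2 (Or.inl ⟨hb1, ?_, ?_⟩)
      · intro h
        rcases Sym2.eq_iff.1 h with ⟨h1, _⟩ | ⟨h1, _⟩
        · exact hal1 h1.symm
        · exact hne h1.symm
      · intro h
        rcases Sym2.eq_iff.1 h with ⟨h1, _⟩ | ⟨h1, _⟩
        · exact hyl1 h1.symm
        · exact hzl1 h1.symm
    have hba' : G'.Adj b1 b0 := by
      refine (hG' b1 b0).2 (Or.inl ⟨hSS b1 b0 hbS haS hb01.symm, ?_, ?_⟩)
      · intro h
        rcases Sym2.eq_iff.1 h with ⟨h1, _⟩ | ⟨h1, _⟩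
        · exact hb01 h1.symm
        · exact hbl0 h1
      · intro h
        rcases Sym2.eq_iff.1 h with ⟨h1, _⟩ | ⟨h1, _⟩
        · exact hby h1
        · exact hbz h1
    have h2 : G'.Adj y b0 := sOne hf hGz' hl0 hl1 hne hlbb' hlay hfb hba' hal1 hay
    rcases (hG' y b0).1 h2 with ⟨h3, _, _⟩ | h3 | h3
    · exact hyn b0 haS h3
    · rcases Sym2.eq_iff.1 h3 with ⟨h4, _⟩ | ⟨h4, _⟩
      · exact hay h4.symm
      · exact hyz.ne h4
    · rcases Sym2.eq_iff.1 h3 with ⟨_, h4⟩ | ⟨h4, _⟩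
      · exact hal0 h4
      · exact hyl0 h4
  · -- full
    rintro x hx ⟨o, ho, hxo⟩ w hw hwx
    by_cases hfo : f o = 1
    · exact hR w hw x ((hSdef x).2 ⟨o, hfo, hxo.symm⟩) hwx.symm
    · exact (key x o hx ho hfo hxo).1 w hw hwx
  · -- uniq
    intro x hx o ho o' ho' hxo hxo'
    by_cases hfo : f o = 1
    · by_cases hfo' : f o' = 1
      · by_contra hoo
        exact two_leaves hM (hdeg o hfo) (hdeg o' hfo') hoo hxo.symm hxo'.symm
      · exact absurd hxo'.symm ((hOn o' ho' hfo').2 x ((hSdef x).2 ⟨o, hfo, hxo.symm⟩))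
    · by_cases hfo' : f o' = 1
      · exact absurd hxo.symm ((hOn o ho hfo).2 x ((hSdef x).2 ⟨o', hfo', hxo'.symm⟩))
      · exact ((key x o hx ho hfo hxo).2 o' ho' hfo' hxo').symm

end Pool.Agent.MP_6e0dc6_co.Leaf2
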