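import Pool.Agent.Lib.MP_6e0dc6_co.Leaf2.SOne
import Pool.Agent.Lib.MP_6e0dc6_co.Leaf2.Cnt

/-! Board LF, module Defc: f forcing with the numbers of Num gives the matching condition on R = {j <= f < D}. -/

set_option autoImplicit false

namespace Pool.Agent.MP_6e0dc6_co.Leaf2

variable {V : Type*} [Fintype V] [DecidableEq V]

theorem miss_of_forc {f : V → ℕ} {j D : ℕ} (hn : Nonempty V) (h : Num f j D) (hf : Forc f)
    (hv : ∃ G, Rz f G) :
    MissAtMost (fun i : {i // j ≤ f i ∧ f i < D} => f i - j) (j - {i | f i < j}.ncard) := by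
  intro H hH
  obtain ⟨G, hG⟩ := hv
  obtain ⟨hjD, hS, hK, hO⟩ := num_struct hn h hG
  -- the new graph
  let G' : SimpleGraph V :=
    { Adj := fun u w => (G.Adj u w ∧ ¬ ((j ≤ f u ∧ f u < D) ∧ (j ≤ f w ∧ f w < D))) ∨
        ∃ (hu : j ≤ f u ∧ f u < D) (hw : j ≤ f w ∧ f w < D), H.Adj ⟨u, hu⟩ ⟨w, hw⟩
      symm := ⟨by
        rintro u w (⟨h1, h2⟩ | ⟨hu, hw, h1⟩)
        · exact Or.inl ⟨h1.symm, fun h3 => h2 ⟨h3.2, h3.1⟩⟩
        · exact Or.inr ⟨hw, hu, h1.symm⟩⟩
      loopless := ⟨by
        rintro u (⟨h1, _⟩ | ⟨hu, hw, h1⟩)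
        · exact G.loopless.irrefl u h1
        · exact H.loopless.irrefl _ h1⟩ }
  have hadj : ∀ u w, G'.Adj u w ↔ (G.Adj u w ∧ ¬ ((j ≤ f u ∧ f u < D) ∧ (j ≤ f w ∧ f w < D))) ∨
        ∃ (hu : j ≤ f u ∧ f u < D) (hw : j ≤ f w ∧ f w < D), H.Adj ⟨u, hu⟩ ⟨w, hw⟩ :=
    fun u w => Iff.rfl
  have hG' : Rz f G' := by
    intro u
    by_cases hu : j ≤ f u ∧ f u < D
    · have e : G'.neighborSet u = {i | f i = D} ∪ Subtype.val '' (H.neighborSet ⟨u, hu⟩) := by
        ext w
        rw [SimpleGraph.mem_neighborSet, hadj]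
        constructor
        · rintro (⟨h1, h2⟩ | ⟨_, hw, h1⟩)
          · left
            have hwR : ¬ (j ≤ f w ∧ f w < D) := fun h3 => h2 ⟨hu, h3⟩
            have hwO : ¬ f w < j := by
              intro h3
              have := hO w h3 u h1.symm
              omega
            have := h.le w
            show f w = D
            omega
          · right
            exact ⟨⟨w, hw⟩, h1, rfl⟩
        · rintro (h1 | ⟨⟨w', hw'⟩, h1, rfl⟩)
          · left
            have h1' : f w = D := h1
            refine ⟨?_, fun h3 => by omega⟩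
            obtain ⟨o, ho, hao⟩ := hK w h1'
            have := hS.full w (by show ¬ f w < j; omega) ⟨o, ho, hao⟩ u (by show ¬ f u < j; omega)
              (by rintro rfl; omega)
            exact this.symm
          · right
            exact ⟨hu, hw', h1⟩
      rw [e, Set.ncard_union_eq, h.top, Set.ncard_image_of_injective _ Subtype.val_injective, hH]
      · show j + (f u - j) = f u
        omega
      · rw [Set.disjoint_left]
        rintro x hx ⟨⟨y, hy⟩, _, rfl⟩
        have hx' : f y = D := hx
        omega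
    · have e : G'.neighborSet u = G.neighborSet u := by
        ext w
        rw [SimpleGraph.mem_neighborSet, hadj, SimpleGraph.mem_neighborSet]
        constructor
        · rintro (⟨h1, _⟩ | ⟨hu', _, _⟩)
          · exact h1
          · exact absurd hu' hu
        · intro h1
          exact Or.inl ⟨h1, fun h3 => hu h3.1⟩
      rw [e]
      exact hG u
  obtain ⟨m, hm⟩ := hf G' hG'
  have hmi : Function.Injective m := Function.LeftInverse.injective (fun v => (hm v).1)
  let M : H.Subgraph :=
    { verts := {x | j ≤ f (m x) ∧ f (m x) < D}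
      Adj := fun x y => m x = y
      adj_sub := by
        intro x y hxy
        have h1 := (hm x).2
        rw [hxy, hadj] at h1
        rcases h1 with ⟨_, h2⟩ | ⟨_, _, h2⟩
        · exact absurd ⟨x.2, y.2⟩ h2
        · exact h2
      edge_vert := by
        intro x y hxy
        show j ≤ f (m x) ∧ f (m x) < D
        rw [hxy]
        exact y.2
      symm := ⟨by
        intro x y hxy
        show m y = x
        rw [← hxy, (hm x).1]⟩ }
  refine ⟨M, ?_, ?_⟩
  · intro x hx
    have hx' : j ≤ f (m x) ∧ f (m x) < D := hx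
    refine ⟨⟨m x, hx'⟩, rfl, ?_⟩
    intro y hy
    exact Subtype.ext (Eq.symm hy)
  · have hsub : m '' (Subtype.val '' M.vertsᶜ ∪ {i | f i < j}) ⊆ {i | f i = D} := by
      rintro _ ⟨x, (⟨y, hy, rfl⟩ | hx), rfl⟩
      · have hy' : ¬ (j ≤ f (m y) ∧ f (m y) < D) := hy
        have h1 := (hm y).2
        rw [hadj] at h1
        rcases h1 with ⟨h1, _⟩ | ⟨_, h2, _⟩
        · have hwO : ¬ f (m y) < j := by
            intro h3
            have := hO _ h3 _ h1.symm
            have := y.2
            omega
          have := h.le (m y)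
          show f (m y) = D
          omega
        · exact absurd h2 hy'
      · have hx' : f x < j := hx
        have h1 := (hm x).2
        rw [hadj] at h1
        rcases h1 with ⟨h1, _⟩ | ⟨h2, _, _⟩
        · exact hO x hx' _ h1
        · omega
    have h1 := Set.ncard_le_ncard hsub (Set.toFinite _)
    rw [Set.ncard_image_of_injective _ hmi, Set.ncard_union_eq, h.top,
      Set.ncard_image_of_injective _ Subtype.val_injective] at h1
    · omega
    · rw [Set.disjoint_left]
      rintro x ⟨y, _, rfl⟩ hx
      have hx' : f y < j := hx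
      have := y.2
      omega

end Pool.Agent.MP_6e0dc6_co.Leaf2
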