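import Pool.Agent.Lib.MP_6e0dc6_co.Leaf2.Basic

/-! Board LF, module Switch. Remove the edges ax, by and add ay, bx. For the degrees: the neighbourhood of
a loses x and gains y, and so on; all other neighbourhoods are unchanged. (a, b, x, y are distinct.) -/

set_option autoImplicit false

namespace Pool.Agent.MP_6e0dc6_co.Leaf2

variable {V : Type*}

theorem switch [Finite V] (G : SimpleGraph V) {a x b y : V} (hax : G.Adj a x) (hby : G.Adj b y)
    (hay : ¬ G.Adj a y) (hbx : ¬ G.Adj b x) (h1 : a ≠ y) (h2 : b ≠ x) :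
    ∃ G' : SimpleGraph V, (∀ v, (G'.neighborSet v).ncard = (G.neighborSet v).ncard) ∧
      ∀ u w, G'.Adj u w ↔ ((G.Adj u w ∧ s(u, w) ≠ s(a, x) ∧ s(u, w) ≠ s(b, y)) ∨
        s(u, w) = s(a, y) ∨ s(u, w) = s(b, x)) := by
  classical
  have hax' : a ≠ x := hax.ne
  have hby' : b ≠ y := hby.ne
  have hab : a ≠ b := by
    rintro rfl
    exact hbx hax
  have hxy : x ≠ y := by
    rintro rfl
    exact hay hax
  let G' : SimpleGraph V :=
    { Adj := fun u w => (G.Adj u w ∧ s(u, w) ≠ s(a, x) ∧ s(u, w) ≠ s(b, y)) ∨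
        s(u, w) = s(a, y) ∨ s(u, w) = s(b, x)
      symm := ⟨by
        intro u w h
        rw [Sym2.eq_swap (a := w) (b := u)]
        rcases h with ⟨h3, h4⟩ | h
        · exact Or.inl ⟨h3.symm, h4⟩
        · exact Or.inr h⟩
      loopless := ⟨by
        intro u h
        rcases h with ⟨h3, _⟩ | h | h
        · exact G.irrefl h3
        · rw [Sym2.eq_iff] at h
          rcases h with ⟨h4, h5⟩ | ⟨h4, h5⟩
          · exact h1 (h4.symm.trans h5)
          · exact h1 (h5.symm.trans h4)
        · rw [Sym2.eq_iff] at h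
          rcases h with ⟨h4, h5⟩ | ⟨h4, h5⟩
          · exact h2 (h4.symm.trans h5)
          · exact h2 (h5.symm.trans h4)⟩ }
  have hadj : ∀ u w, G'.Adj u w ↔ ((G.Adj u w ∧ s(u, w) ≠ s(a, x) ∧ s(u, w) ≠ s(b, y)) ∨
        s(u, w) = s(a, y) ∨ s(u, w) = s(b, x)) := fun u w => Iff.rfl
  refine ⟨G', fun v => ?_, hadj⟩
  have hxa := hax.symm
  have hyb := hby.symm
  have hya : ¬ G.Adj y a := fun h => hay h.symm
  have hxb : ¬ G.Adj x b := fun h => hbx h.symm
  by_cases hva : v = a
  · subst hva
    have : G'.neighborSet v = insert y (G.neighborSet v \ {x}) := by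
      ext w
      simp only [SimpleGraph.mem_neighborSet, hadj, Sym2.eq_iff, Set.mem_insert_iff,
        Set.mem_sdiff, Set.mem_singleton_iff, ne_eq]
      constructor
      · rintro (⟨h3, h4, h5⟩ | h3 | h3)
        · right
          exact ⟨h3, fun h => h4 (Or.inl ⟨trivial, h⟩)⟩
        · rcases h3 with ⟨_, h4⟩ | ⟨h4, h5⟩
          · exact Or.inl h4
          · exact absurd h4 h1
        · rcases h3 with ⟨h4, _⟩ | ⟨h4, _⟩
          · exact absurd h4 hab
          · exact absurd h4 hax'
      · rintro (rfl | ⟨h3, h4⟩)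
        · exact Or.inr (Or.inl (Or.inl ⟨trivial, rfl⟩))
        · left
          refine ⟨h3, ?_, ?_⟩
          · rintro (⟨_, h5⟩ | ⟨h5, _⟩)
            · exact h4 h5
            · exact hax' h5
          · rintro (⟨h5, _⟩ | ⟨h5, _⟩)
            · exact hab h5
            · exact h1 h5
    rw [this]
    exact Set.ncard_exchange (by simpa using hay) (by simpa using hax)
  by_cases hvb : v = b
  · subst hvb
    have : G'.neighborSet v = insert x (G.neighborSet v \ {y}) := by
      ext w
      simp only [SimpleGraph.mem_neighborSet, hadj, Sym2.eq_iff, Set.mem_insert_iff,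
        Set.mem_sdiff, Set.mem_singleton_iff, ne_eq]
      constructor
      · rintro (⟨h3, h4, h5⟩ | h3 | h3)
        · right
          exact ⟨h3, fun h => h5 (Or.inl ⟨trivial, h⟩)⟩
        · rcases h3 with ⟨h4, _⟩ | ⟨h4, _⟩
          · exact absurd h4 hva
          · exact absurd h4 hby'
        · rcases h3 with ⟨_, h4⟩ | ⟨h4, _⟩
          · exact Or.inl h4
          · exact absurd h4 h2
      · rintro (rfl | ⟨h3, h4⟩)
        · exact Or.inr (Or.inr (Or.inl ⟨trivial, rfl⟩))
        · left
          refine ⟨h3, ?_, ?_⟩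
          · rintro (⟨h5, _⟩ | ⟨h5, _⟩)
            · exact hva h5
            · exact h2 h5
          · rintro (⟨_, h5⟩ | ⟨h5, _⟩)
            · exact h4 h5
            · exact hby' h5
    rw [this]
    exact Set.ncard_exchange (by simpa using hbx) (by simpa using hby)
  by_cases hvx : v = x
  · subst hvx
    have : G'.neighborSet v = insert b (G.neighborSet v \ {a}) := by
      ext w
      simp only [SimpleGraph.mem_neighborSet, hadj, Sym2.eq_iff, Set.mem_insert_iff,
        Set.mem_sdiff, Set.mem_singleton_iff, ne_eq]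
      constructor
      · rintro (⟨h3, h4, h5⟩ | h3 | h3)
        · right
          exact ⟨h3, fun h => h4 (Or.inr ⟨trivial, h⟩)⟩
        · rcases h3 with ⟨h4, _⟩ | ⟨h4, _⟩
          · exact absurd h4 hva
          · exact absurd h4 hxy
        · rcases h3 with ⟨h4, _⟩ | ⟨_, h4⟩
          · exact absurd h4 hvb
          · exact Or.inl h4
      · rintro (rfl | ⟨h3, h4⟩)
        · exact Or.inr (Or.inr (Or.inr ⟨trivial, rfl⟩))
        · left
          refine ⟨h3, ?_, ?_⟩
          · rintro (⟨h5, _⟩ | ⟨_, h5⟩)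
            · exact hva h5
            · exact h4 h5
          · rintro (⟨h5, _⟩ | ⟨h5, _⟩)
            · exact hvb h5
            · exact hxy h5
    rw [this]
    exact Set.ncard_exchange (by simpa using hxb) (by simpa using hxa)
  by_cases hvy : v = y
  · subst hvy
    have : G'.neighborSet v = insert a (G.neighborSet v \ {b}) := by
      ext w
      simp only [SimpleGraph.mem_neighborSet, hadj, Sym2.eq_iff, Set.mem_insert_iff,
        Set.mem_sdiff, Set.mem_singleton_iff, ne_eq]
      constructor
      · rintro (⟨h3, h4, h5⟩ | h3 | h3)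
        · right
          exact ⟨h3, fun h => h5 (Or.inr ⟨trivial, h⟩)⟩
        · rcases h3 with ⟨h4, _⟩ | ⟨_, h4⟩
          · exact absurd h4 hva
          · exact Or.inl h4
        · rcases h3 with ⟨h4, _⟩ | ⟨h4, _⟩
          · exact absurd h4 hvb
          · exact absurd h4 hvx
      · rintro (rfl | ⟨h3, h4⟩)
        · exact Or.inr (Or.inl (Or.inr ⟨trivial, rfl⟩))
        · left
          refine ⟨h3, ?_, ?_⟩
          · rintro (⟨h5, _⟩ | ⟨h5, _⟩)
            · exact hva h5
            · exact hvx h5
          · rintro (⟨h5, _⟩ | ⟨_, h5⟩)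
            · exact hvb h5
            · exact h4 h5
    rw [this]
    exact Set.ncard_exchange (by simpa using hya) (by simpa using hyb)
  have : G'.neighborSet v = G.neighborSet v := by
    ext w
    simp only [SimpleGraph.mem_neighborSet, hadj, Sym2.eq_iff, ne_eq]
    constructor
    · rintro (⟨h3, _⟩ | (⟨h3, _⟩ | ⟨h3, _⟩) | (⟨h3, _⟩ | ⟨h3, _⟩))
      · exact h3
      · exact absurd h3 hva
      · exact absurd h3 hvy
      · exact absurd h3 hvb
      · exact absurd h3 hvx
    · intro h3
      left
      refine ⟨h3, ?_, ?_⟩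
      · rintro (⟨h4, _⟩ | ⟨h4, _⟩)
        · exact hva h4
        · exact hvx h4
      · rintro (⟨h4, _⟩ | ⟨h4, _⟩)
        · exact hvb h4
        · exact hvy h4
  rw [this]

/-- a vertex of degree 1 has only one neighbour -/
theorem leaf_unique [Finite V] {G : SimpleGraph V} {l c c' : V} (h : (G.neighborSet l).ncard = 1)
    (h1 : G.Adj l c) (h2 : G.Adj l c') : c = c' := by
  obtain ⟨z, hz⟩ := Set.ncard_eq_one.1 h
  have h3 : c ∈ G.neighborSet l := h1
  have h4 : c' ∈ G.neighborSet l := h2
  rw [hz, Set.mem_singleton_iff] at h3 h4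
  rw [h3, h4]

/-- two vertices of degree 1 with the same neighbour exclude a perfect matching -/
theorem two_leaves [Finite V] {G : SimpleGraph V} (hM : Mat G) {l l' c : V}
    (hl : (G.neighborSet l).ncard = 1) (hl' : (G.neighborSet l').ncard = 1) (hne : l ≠ l')
    (h1 : G.Adj l c) (h2 : G.Adj l' c) : False := by
  obtain ⟨m, hm⟩ := hM
  have e1 : m l = c := leaf_unique hl (hm l).2 h1
  have e2 : m l' = c := leaf_unique hl' (hm l').2 h2
  have e3 := (hm l).1
  have e4 := (hm l').1
  rw [e1] at e3
  rw [e2] at e4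
  exact hne (e3.symm.trans e4)

end Pool.Agent.MP_6e0dc6_co.Leaf2
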