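import Pool.Agent.Lib.MP_6e0dc6_co.Leaf2.PM
import Pool.Agent.Lib.MP_6e0dc6_co.Leaf2.Switch

/-! Board LF, module Exc: exactly two leaves l, l' and all other degrees n - 3, n = card V even. -/

set_option autoImplicit false

namespace Pool.Agent.MP_6e0dc6_co.Leaf2

variable {V : Type*} [Fintype V] [DecidableEq V]

theorem mat_exc {f : V → ℕ} (hev : Even (Fintype.card V))
    (h1 : ∀ i, f i = 1 ∨ f i + 3 = Fintype.card V) (h2 : {i | f i = 1}.ncard = 2)
    {G : SimpleGraph V} (hG : Rz f G) : Mat G := by
  obtain ⟨l, l', hne, hL⟩ := Set.ncard_eq_two.1 h2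
  have hl : f l = 1 := by
    have h : l ∈ {i | f i = 1} := by rw [hL]; exact Or.inl rfl
    exact h
  have hl' : f l' = 1 := by
    have h : l' ∈ {i | f i = 1} := by rw [hL]; exact Or.inr rfl
    exact h
  have hbig : ∀ v, v ≠ l → v ≠ l' → f v + 3 = Fintype.card V := by
    intro v hv hv'
    rcases h1 v with h | h
    · exfalso
      have h3 : v ∈ {i | f i = 1} := h
      rw [hL] at h3
      rcases h3 with h3 | h3
      · exact hv h3
      · exact hv' h3
    · exact h
  have key : ∀ v, v ≠ l → v ≠ l' → ¬ G.Adj v l → ¬ G.Adj v l' →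
      ∀ w, w ≠ v → w ≠ l → w ≠ l' → G.Adj v w := by
    intro v hv hv' hvl hvl' w hwv hwl hwl'
    have hc : ((({v, l, l'} : Finset V)ᶜ : Finset V) : Set V).ncard = Fintype.card V - 3 := by
      rw [Set.ncard_coe_finset, Finset.card_compl,
        Finset.card_eq_three.2 ⟨v, l, l', hv, hv', hne, rfl⟩]
    have hsub : G.neighborSet v ⊆ ((({v, l, l'} : Finset V)ᶜ : Finset V) : Set V) := by
      intro x hx
      have hx' : G.Adj v x := hx
      simp only [Finset.coe_compl, Set.mem_compl_iff, Finset.mem_coe, Finset.mem_insert,
        Finset.mem_singleton, not_or]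
      refine ⟨?_, ?_, ?_⟩
      · rintro rfl
        exact G.loopless.irrefl _ hx'
      · rintro rfl
        exact hvl hx'
      · rintro rfl
        exact hvl' hx'
    have hle : ((({v, l, l'} : Finset V)ᶜ : Finset V) : Set V).ncard ≤ (G.neighborSet v).ncard := by
      rw [hc, hG v]
      have := hbig v hv hv'
      omega
    have heq := Set.eq_of_subset_of_ncard_le hsub hle (Set.toFinite _)
    have hw : w ∈ G.neighborSet v := by
      rw [heq]
      simp [hwv, hwl, hwl']
    exact hw
  obtain ⟨c, hc⟩ := Set.ncard_eq_one.1 ((hG l).trans hl)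
  obtain ⟨c', hc'⟩ := Set.ncard_eq_one.1 ((hG l').trans hl')
  have hlc : G.Adj l c := by
    have h : c ∈ G.neighborSet l := by rw [hc]; rfl
    exact h
  have hlc' : G.Adj l' c' := by
    have h : c' ∈ G.neighborSet l' := by rw [hc']; rfl
    exact h
  have hu : ∀ x, G.Adj l x → x = c := by
    intro x hx
    have h : x ∈ G.neighborSet l := hx
    rw [hc] at h
    exact h
  have hu' : ∀ x, G.Adj l' x → x = c' := by
    intro x hx
    have h : x ∈ G.neighborSet l' := hx
    rw [hc'] at h
    exact h
  obtain ⟨r, hr⟩ := hev
  by_cases hcl : c = l'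
  · subst hcl
    have hcase : c' = l := (hu' l hlc.symm).symm
    have h2c : (({l, c} : Finset V)).card = 2 := Finset.card_pair hne
    have hcl1 : On G (({l, c} : Finset V)ᶜ) := by
      refine On.clique ?_ ?_
      · rw [Finset.card_compl, h2c]
        exact ⟨r - 1, by omega⟩
      · intro a ha b hb hab
        simp only [Finset.mem_compl, Finset.mem_insert, Finset.mem_singleton, not_or] at ha hb
        refine key a ha.1 ha.2 ?_ ?_ b (Ne.symm hab) hb.1 hb.2
        · intro h
          exact ha.2 (hu a h.symm)
        · intro h
          have := hu' a h.symm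
          exact ha.1 (this.trans hcase)
    have hun := On.union (On.pair hlc) hcl1 disjoint_compl_right
    rw [Finset.union_compl] at hun
    exact hun.mat
  have hcl0 : c ≠ l := by
    rintro rfl
    exact G.loopless.irrefl _ hlc
  have hcl' : c' ≠ l' := by
    rintro rfl
    exact G.loopless.irrefl _ hlc'
  have hcl0' : c' ≠ l := by
    rintro rfl
    exact hcl (hu l' hlc'.symm).symm
  by_cases hcc : c = c'
  · exfalso
    subst hcc
    have hsub : ((({c} : Finset V)ᶜ : Finset V) : Set V) ⊆ G.neighborSet c := by
      intro w hw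
      simp only [Finset.coe_compl, Finset.coe_singleton, Set.mem_compl_iff,
        Set.mem_singleton_iff] at hw
      show G.Adj c w
      by_cases hwl : w = l
      · subst hwl
        exact hlc.symm
      by_cases hwl' : w = l'
      · subst hwl'
        exact hlc'.symm
      refine (key w hwl hwl' ?_ ?_ c (Ne.symm hw) hcl0 hcl).symm
      · intro h
        exact hw (hu w h.symm)
      · intro h
        exact hw (hu' w h.symm)
    have h3 := Set.ncard_le_ncard hsub (Set.toFinite _)
    rw [Set.ncard_coe_finset, Finset.card_compl, Finset.card_singleton, hG c] at h3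
    have h4 := hbig c hcl0 hcl
    omega
  · have hd : Disjoint ({l, c} : Finset V) ({l', c'} : Finset V) := by
      rw [Finset.disjoint_left]
      intro x hx hx'
      simp only [Finset.mem_insert, Finset.mem_singleton] at hx hx'
      rcases hx with rfl | rfl
      · rcases hx' with h | h
        · exact hne h
        · exact hcl0' h.symm
      · rcases hx' with h | h
        · exact hcl h
        · exact hcc h
    have h4 : ((({l, c} : Finset V) ∪ ({l', c'} : Finset V))).card = 4 := by
      rw [Finset.card_union_of_disjoint hd, Finset.card_pair (Ne.symm hcl0),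
        Finset.card_pair (Ne.symm hcl')]
    have hcl1 : On G ((({l, c} : Finset V) ∪ ({l', c'} : Finset V))ᶜ) := by
      refine On.clique ?_ ?_
      · rw [Finset.card_compl, h4]
        exact ⟨r - 2, by omega⟩
      · intro a ha b hb hab
        simp only [Finset.mem_compl, Finset.mem_union, Finset.mem_insert, Finset.mem_singleton,
          not_or] at ha hb
        refine key a ha.1.1 ha.2.1 ?_ ?_ b (Ne.symm hab) hb.1.1 hb.2.1
        · intro h
          exact ha.1.2 (hu a h.symm)
        · intro h
          exact ha.2.2 (hu' a h.symm)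
    have hun := On.union (On.union (On.pair hlc) (On.pair hlc') hd) hcl1 disjoint_compl_right
    rw [Finset.union_compl] at hun
    exact hun.mat

end Pool.Agent.MP_6e0dc6_co.Leaf2
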