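import Pool.Agent.Lib.MP_6e0dc6_co.Leaf2.Basic

/-! Board LF, module NumF: the arithmetic from the structure. -/

set_option autoImplicit false

namespace Pool.Agent.MP_6e0dc6_co.Leaf2

variable {V : Type*} [Fintype V] [DecidableEq V]

theorem struct_num {f : V → ℕ} {G : SimpleGraph V} (hG : Rz f G) (hpos : ∀ i, 1 ≤ f i) {O : Set V}
    (hO : Struct G O) {l0 l1 : V} (h0 : l0 ∈ O) (h1 : l1 ∈ O) (hne : l0 ≠ l1) :
    ∃ j D : ℕ, Num f j D ∧ O = {i | f i < j} ∧
      (∀ x, f x = D ↔ (x ∉ O ∧ ∃ o ∈ O, G.Adj x o)) := by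
  classical
  obtain ⟨K, hK⟩ : ∃ K : Finset V, ∀ x, x ∈ K ↔ (x ∉ O ∧ ∃ o ∈ O, G.Adj x o) :=
    ⟨Finset.univ.filter (fun x => x ∉ O ∧ ∃ o ∈ O, G.Adj x o), fun x => by simp⟩
  obtain ⟨Of, hOf⟩ : ∃ Of : Finset V, ∀ x, x ∈ Of ↔ x ∈ O :=
    ⟨Finset.univ.filter (fun x => x ∈ O), fun x => by simp⟩
  obtain ⟨D, hD⟩ : ∃ D : ℕ, D = Oᶜ.ncard := ⟨_, rfl⟩
  -- degrees of K
  have hfK : ∀ x, x ∈ K → f x = D := by
    intro x hx
    obtain ⟨hxO, o, ho, hxo⟩ := (hK x).1 hx
    have h2 : G.neighborSet x = insert o (Oᶜ \ {x}) := by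
      ext w
      simp only [SimpleGraph.mem_neighborSet, Set.mem_insert_iff, Set.mem_diff, Set.mem_compl_iff,
        Set.mem_singleton_iff]
      constructor
      · intro hw
        by_cases hwO : w ∈ O
        · exact Or.inl (hO.uniq x hxO w hwO o ho hw hxo)
        · exact Or.inr ⟨hwO, fun e => G.loopless.irrefl x (e ▸ hw)⟩
      · rintro (rfl | ⟨hw, hwx⟩)
        · exact hxo
        · exact hO.full x hxO ⟨o, ho, hxo⟩ w hw hwx
    have h3 : o ∉ Oᶜ \ {x} := fun h => h.1 ho
    have h4 : (Oᶜ \ {x}).ncard + 1 = Oᶜ.ncard :=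
      Set.ncard_diff_singleton_add_one (s := Oᶜ) (a := x) hxO (Set.toFinite _)
    rw [← hG x, h2, Set.ncard_insert_of_notMem h3 (Set.toFinite _), h4, hD]
  have hKD : K.card ≤ D := by
    rw [hD, ← Set.ncard_coe_finset]
    refine Set.ncard_le_ncard (fun x hx => ?_) (Set.toFinite _)
    exact ((hK x).1 (Finset.mem_coe.1 hx)).1
  have hfc : ∀ v, (Finset.univ.filter (fun x => G.Adj v x)).card = f v := by
    intro v
    rw [← hG v, ← Set.ncard_coe_finset]
    congr 1
    ext w
    simp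
  -- sum over O
  have hsum : ∑ o ∈ Of, f o = K.card := by
    have hg : ∃ g : V → V, ∀ x, x ∈ K → g x ∈ O ∧ G.Adj x (g x) := by
      refine ⟨fun x => if h : ∃ o ∈ O, G.Adj x o then h.choose else x, fun x hx => ?_⟩
      have h2 := ((hK x).1 hx).2
      simp only
      rw [dif_pos h2]
      exact h2.choose_spec
    obtain ⟨g, hg⟩ := hg
    rw [Finset.card_eq_sum_card_fiberwise (f := g) (s := K) (t := Of)
      (fun x hx => by
        have := (hg x hx).1
        exact Finset.mem_coe.2 ((hOf _).2 this))]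
    refine Finset.sum_congr rfl fun o ho => ?_
    have ho' := (hOf o).1 ho
    rw [← hfc o]
    congr 1
    ext x
    simp only [Finset.mem_filter, Finset.mem_univ, true_and]
    constructor
    · intro hx
      have hxO : x ∉ O := fun h => hO.indep o ho' x h hx
      have hxK : x ∈ K := (hK x).2 ⟨hxO, o, ho', hx.symm⟩
      exact ⟨hxK, hO.uniq x hxO _ (hg x hxK).1 o ho' (hg x hxK).2 hx.symm⟩
    · rintro ⟨hxK, rfl⟩
      exact (hg x hxK).2.symm
  have hfO : ∀ o, o ∈ O → f o < K.card := by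
    intro o ho
    obtain ⟨o', ho', hoo⟩ : ∃ o' ∈ O, o ≠ o' := by
      by_cases h : o = l0
      · exact ⟨l1, h1, h ▸ hne⟩
      · exact ⟨l0, h0, h⟩
    have h2 : f o + f o' ≤ ∑ o ∈ Of, f o := by
      rw [← Finset.sum_pair hoo]
      apply Finset.sum_le_sum_of_subset
      intro x hx
      rw [Finset.mem_insert, Finset.mem_singleton] at hx
      rcases hx with rfl | rfl
      · exact (hOf _).2 ho
      · exact (hOf _).2 ho'
    have h3 := hpos o'
    omega
  -- the others
  have hfz : ∀ z, z ∉ O → z ∉ K → K.card ≤ f z ∧ f z < D := by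
    intro z hzO hzK
    constructor
    · rw [← hG z, ← Set.ncard_coe_finset]
      refine Set.ncard_le_ncard (fun x hx => ?_) (Set.toFinite _)
      have hxK := Finset.mem_coe.1 hx
      have hx' := (hK x).1 hxK
      exact (hO.full x hx'.1 hx'.2 z hzO (fun e => hzK (e ▸ hxK))).symm
    · have h4 : (Oᶜ \ {z}).ncard + 1 = Oᶜ.ncard :=
        Set.ncard_diff_singleton_add_one (s := Oᶜ) (a := z) hzO (Set.toFinite _)
      have h5 : (G.neighborSet z).ncard ≤ (Oᶜ \ {z}).ncard := by
        refine Set.ncard_le_ncard (fun w hw => ?_) (Set.toFinite _)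
        refine ⟨fun hwO => hzK ((hK z).2 ⟨hzO, w, hwO, hw⟩), fun e => ?_⟩
        have e' : w = z := e
        rw [e'] at hw
        exact G.loopless.irrefl z hw
      rw [hG z] at h5
      omega
  have hiff : ∀ i, f i < K.card ↔ i ∈ O := by
    intro i
    constructor
    · intro h
      by_contra hiO
      by_cases hiK : i ∈ K
      · have := hfK i hiK
        omega
      · have := (hfz i hiO hiK).1
        omega
    · exact hfO i
  have hset : O = {i | f i < K.card} := by
    ext i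
    exact (hiff i).symm
  have htop : ∀ x, f x = D ↔ (x ∉ O ∧ ∃ o ∈ O, G.Adj x o) := by
    intro x
    rw [← hK]
    constructor
    · intro hx
      by_contra hxK
      by_cases hxO : x ∈ O
      · have := hfO x hxO
        omega
      · have := (hfz x hxO hxK).2
        omega
    · exact hfK x
  refine ⟨K.card, D, ⟨hpos, fun i => ?_, ?_, ?_, ?_⟩, hset, htop⟩
  · by_cases hiO : i ∈ O
    · have := hfO i hiO
      omega
    · by_cases hiK : i ∈ K
      · exact (hfK i hiK).le
      · exact (hfz i hiO hiK).2.le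
  · rw [← Set.ncard_coe_finset]
    congr 1
    ext x
    rw [Set.mem_setOf_eq, htop, Finset.mem_coe, hK]
  · rw [← hset, hD, add_comm, Set.ncard_add_ncard_compl, Nat.card_eq_fintype_card]
  · rw [← hsum, ← Finset.sum_filter]
    refine Finset.sum_congr ?_ fun _ _ => rfl
    ext i
    rw [Finset.mem_filter, hsum, hiff, hOf]
    simp

end Pool.Agent.MP_6e0dc6_co.Leaf2
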