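import Pool.Agent.Lib.MP_6e0dc6_co.Leaf2.CaseA
import Pool.Agent.Lib.MP_6e0dc6_co.Leaf2.CaseB
import Pool.Agent.Lib.MP_6e0dc6_co.Leaf2.NumF
import Pool.Agent.Lib.MP_6e0dc6_co.Leaf2.Defc
import Pool.Agent.Lib.MP_6e0dc6_co.Leaf2.Build
import Pool.Agent.Lib.MP_6e0dc6_co.Leaf2.Exc

/-! Matching-forcing sequences with at least two terms 1: assembly. -/

set_option autoImplicit false

namespace Pool.Agent.MP_6e0dc6_co.Leaf2

variable {V : Type*} [Fintype V] [DecidableEq V]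

omit [DecidableEq V] in
theorem mat_pos {f : V → ℕ} {G : SimpleGraph V} (hG : Rz f G) (hM : Mat G) (i : V) : 1 ≤ f i := by
  obtain ⟨m, hm⟩ := hM
  rw [← hG i]
  exact (Set.ncard_pos (Set.toFinite _)).2 ⟨m i, (hm i).2⟩

omit [DecidableEq V] in
theorem mat_even {G : SimpleGraph V} (hM : Mat G) : Even (Fintype.card V) := by
  obtain ⟨M, hM'⟩ := (mat_iff G).2 hM
  exact hM'.even_card

omit [DecidableEq V] in
theorem mat_one {f : V → ℕ} (h : ∀ i, f i = 1) {G : SimpleGraph V} (hG : Rz f G) : Mat G := by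
  have h1 : ∀ v, ∃ w, G.Adj v w := by
    intro v
    have h2 : 0 < (G.neighborSet v).ncard := by rw [hG v, h v]; exact Nat.one_pos
    obtain ⟨w, hw⟩ := (Set.ncard_pos (Set.toFinite _)).1 h2
    exact ⟨w, hw⟩
  choose m hm using h1
  refine ⟨m, fun v => ⟨?_, hm v⟩⟩
  exact leaf_unique (l := m v) (by rw [hG, h]) (hm (m v)) (hm v).symm

theorem main (f : V → ℕ) (hv : IsValence f) (h2 : 2 ≤ {i | f i = 1}.ncard) :
    MatchingForcing f ↔ Even (Fintype.card V) ∧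
      ((∀ i, f i = 1) ∨
        ((∀ i, f i = 1 ∨ f i + 3 = Fintype.card V) ∧ {i | f i = 1}.ncard = 2) ∨
        ∃ j D : ℕ, 0 < j ∧ Num f j D ∧
          MissAtMost (fun i : {i // j ≤ f i ∧ f i < D} => f i - j) (j - {i | f i < j}.ncard)) := by
  constructor
  · intro hmf
    have hf : Forc f := fun G hG => (mat_iff G).1 (hmf.2 G hG)
    obtain ⟨G0, hG0⟩ := hv
    have hM0 := hf G0 hG0
    have hpos : ∀ i, 1 ≤ f i := mat_pos hG0 hM0
    refine ⟨mat_even hM0, ?_⟩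
    by_cases hall : ∀ i, f i = 1
    · exact Or.inl hall
    right
    push Not at hall
    obtain ⟨w, hw⟩ := hall
    obtain ⟨l0, l1, hl0, hl1, hne⟩ := (Set.one_lt_ncard_iff (Set.toFinite _)).1 (show 1 < _ from h2)
    obtain ⟨G, hG, hT⟩ := exists_tII hf ⟨G0, hG0⟩ (l := l0) hl0 hw
    by_cases hS : ∀ l l' a b, f l = 1 → f l' = 1 → G.Adj l a → G.Adj l' b → a ≠ b → G.Adj a b
    · right
      obtain ⟨O, h0, h1, hO⟩ := caseB hf hG hT hl0 hl1 hne hS
      obtain ⟨j, D, hN, hOj, -⟩ := struct_num hG hpos hO h0 h1 hne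
      have hj : 0 < j := by
        rw [hOj] at h0
        exact lt_of_le_of_lt (Nat.zero_le _) h0
      exact ⟨j, D, hj, hN, miss_of_forc ⟨l0⟩ hN hf ⟨G0, hG0⟩⟩
    · left
      push Not at hS
      obtain ⟨l, l', a, b, hl, hl', ha, hb, hab, hnab⟩ := hS
      have hll : l ≠ l' := by
        rintro rfl
        exact hab (leaf_unique (by rw [hG, hl]) ha hb)
      exact caseA hf hG hT hl hl' hll ha hb hab hnab
  · rintro ⟨hev, h⟩
    refine ⟨hv, fun G hG => (mat_iff G).2 ?_⟩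
    rcases h with h | ⟨ha, hb⟩ | ⟨j, D, -, h⟩
    · exact mat_one h hG
    · exact mat_exc hev ha hb hG
    · exact mat_of_cond hev ⟨j, D, h⟩ hG

end Pool.Agent.MP_6e0dc6_co.Leaf2
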