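import Pool.Agent.Lib.MP_6e0dc6_co.Leaf2.Basic

/-! Board LF, module PM. -/

set_option autoImplicit false

namespace Pool.Agent.MP_6e0dc6_co.Leaf2

variable {V : Type*}

/-- perfect matchings as involutions -/
theorem mat_iff (G : SimpleGraph V) : (∃ M : G.Subgraph, M.IsPerfectMatching) ↔ Mat G := by
  constructor
  · rintro ⟨M, hM⟩
    rw [SimpleGraph.Subgraph.isPerfectMatching_iff] at hM
    choose m hm hu using hM
    refine ⟨m, fun v => ⟨?_, M.adj_sub (hm v)⟩⟩
    exact (hu (m v) v (hm v).symm).symm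
  · rintro ⟨m, hm⟩
    let M : G.Subgraph :=
      { verts := Set.univ
        Adj := fun v w => m v = w
        adj_sub := by
          intro v w h
          rw [← h]
          exact (hm v).2
        edge_vert := fun _ => Set.mem_univ _
        symm := ⟨by
          intro v w h
          rw [← h]
          exact (hm v).1⟩ }
    refine ⟨M, ?_⟩
    rw [SimpleGraph.Subgraph.isPerfectMatching_iff]
    intro v
    exact ⟨m v, rfl, fun w (hw : m v = w) => Eq.symm hw⟩

/-- the vertices of the finite set `S` are matched among themselves -/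
def On (G : SimpleGraph V) (S : Finset V) : Prop :=
  ∃ m : V → V, ∀ v ∈ S, m v ∈ S ∧ m (m v) = v ∧ G.Adj v (m v)

theorem On.mat [Fintype V] {G : SimpleGraph V} (h : On G Finset.univ) : Mat G := by
  obtain ⟨m, hm⟩ := h
  exact ⟨m, fun v => (hm v (Finset.mem_univ v)).2⟩

theorem On.union [DecidableEq V] {G : SimpleGraph V} {S T : Finset V} (hS : On G S) (hT : On G T)
    (hd : Disjoint S T) : On G (S ∪ T) := by
  obtain ⟨m, hm⟩ := hS
  obtain ⟨n, hn⟩ := hT
  refine ⟨fun v => if v ∈ S then m v else n v, fun v hv => ?_⟩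
  by_cases h : v ∈ S
  · obtain ⟨h1, h2, h3⟩ := hm v h
    simp only [if_pos h, if_pos h1]
    exact ⟨Finset.mem_union_left _ h1, h2, h3⟩
  · have hvT : v ∈ T := (Finset.mem_union.1 hv).resolve_left h
    obtain ⟨h1, h2, h3⟩ := hn v hvT
    have h4 : n v ∉ S := fun h' => Finset.disjoint_left.1 hd h' h1
    simp only [if_neg h, if_neg h4]
    exact ⟨Finset.mem_union_right _ h1, h2, h3⟩

theorem On.pair [DecidableEq V] {G : SimpleGraph V} {a b : V} (h : G.Adj a b) : On G {a, b} := by
  refine ⟨Equiv.swap a b, fun v hv => ?_⟩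
  rw [Finset.mem_insert, Finset.mem_singleton] at hv
  rcases hv with rfl | rfl
  · rw [Equiv.swap_apply_left, Equiv.swap_apply_right]
    exact ⟨by simp, rfl, h⟩
  · rw [Equiv.swap_apply_right, Equiv.swap_apply_left]
    exact ⟨by simp, rfl, h.symm⟩

/-- a matching from `A` into the complement of `A` -/
theorem On.of_inj [DecidableEq V] {G : SimpleGraph V} {A : Finset V} (g : V → V)
    (hg : Set.InjOn g A) (hA : ∀ a ∈ A, G.Adj a (g a) ∧ g a ∉ A) : On G (A ∪ A.image g) := by
  have hex : ∀ v : V, ∃ w : V, v ∈ A.image g → w ∈ A ∧ g w = v := by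
    intro v
    by_cases h : v ∈ A.image g
    · obtain ⟨w, hw, hwv⟩ := Finset.mem_image.1 h
      exact ⟨w, fun _ => ⟨hw, hwv⟩⟩
    · exact ⟨v, fun h' => absurd h' h⟩
  choose r hr using hex
  refine ⟨fun v => if v ∈ A then g v else r v, fun v hv => ?_⟩
  by_cases h : v ∈ A
  · obtain ⟨h1, h2⟩ := hA v h
    have h3 : g v ∈ A.image g := Finset.mem_image_of_mem g h
    obtain ⟨h4, h5⟩ := hr (g v) h3
    simp only [if_pos h, if_neg h2]
    exact ⟨Finset.mem_union_right _ h3, hg h4 h h5, h1⟩
  · have h3 : v ∈ A.image g := (Finset.mem_union.1 hv).resolve_left h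
    obtain ⟨h4, h5⟩ := hr v h3
    simp only [if_neg h, if_pos h4]
    refine ⟨Finset.mem_union_left _ h4, h5, ?_⟩
    have h6 := (hA (r v) h4).1
    rw [h5] at h6
    exact h6.symm

/-- an even clique -/
theorem On.clique [DecidableEq V] {G : SimpleGraph V} {S : Finset V} (hS : Even S.card)
    (hc : ∀ a ∈ S, ∀ b ∈ S, a ≠ b → G.Adj a b) : On G S := by
  obtain ⟨k, hk⟩ := hS
  induction k generalizing S with
  | zero =>
    have h0 : S = ∅ := Finset.card_eq_zero.1 (by omega)
    subst h0
    exact ⟨id, fun v hv => absurd hv (Finset.notMem_empty v)⟩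
  | succ k ih =>
    obtain ⟨a, ha, b, hb, hab⟩ := Finset.one_lt_card.1 (by omega : 1 < S.card)
    have hsub : ({a, b} : Finset V) ⊆ S := by
      intro x hx
      rw [Finset.mem_insert, Finset.mem_singleton] at hx
      rcases hx with rfl | rfl
      · exact ha
      · exact hb
    have hcard : (S \ {a, b}).card = k + k := by
      rw [Finset.card_sdiff_of_subset hsub, Finset.card_pair hab]
      omega
    have h1 : On G (S \ {a, b}) := ih (fun x hx y hy hxy =>
      hc x (Finset.mem_sdiff.1 hx).1 y (Finset.mem_sdiff.1 hy).1 hxy) hcard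
    have h2 : On G ({a, b} : Finset V) := On.pair (hc a ha b hb hab)
    have h3 := h1.union h2 Finset.sdiff_disjoint
    rwa [Finset.sdiff_union_of_subset hsub] at h3

end Pool.Agent.MP_6e0dc6_co.Leaf2
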