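import Pool.Agent.Lib.MP_6e0dc6_co.Leaf2.PM
import Pool.Agent.Lib.MP_6e0dc6_co.Leaf2.Switch

/-! Board MF6, module SOne. -/

set_option autoImplicit false

namespace Pool.Agent.MP_6e0dc6_co.Leaf2

variable {V : Type*}

/-- every graph with the degrees `f` has a perfect matching -/
def Forc (f : V → ℕ) : Prop := ∀ G : SimpleGraph V, Rz f G → Mat G

/-- l is a leaf at b, l' another leaf at a (not a leaf); then every other neighbour of a is a neighbour of b.
Otherwise switch (a x)(b l) to (a l)(b x): then both leaves l, l' are at a. -/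
theorem sOne [Finite V] {f : V → ℕ} (hf : Forc f) {G : SimpleGraph V} (hG : Rz f G) {l l' a b x : V}
    (hl : f l = 1) (hl' : f l' = 1) (hll : l ≠ l') (hla : G.Adj l' a) (hlb : G.Adj l b)
    (ha : f a ≠ 1) (hx : G.Adj a x) (hxl : x ≠ l') (hxb : x ≠ b) : G.Adj b x := by
  by_contra hbx
  have hab : a ≠ b := by
    rintro rfl
    exact hbx hx
  have hal : ¬ G.Adj a l := by
    intro h
    exact hab (leaf_unique (by rw [hG, hl]) h.symm hlb)
  have hal' : a ≠ l := by
    rintro rfl
    exact ha hl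
  obtain ⟨G', hd, hadj⟩ := switch G hx hlb.symm hal hbx hal' (Ne.symm hxb)
  have hG' : Rz f G' := fun v => (hd v).trans (hG v)
  have hxl2 : x ≠ l := by
    rintro rfl
    exact hal hx
  have e1 : G'.Adj l a := (hadj l a).2 (Or.inr (Or.inl (Sym2.eq_swap)))
  have e2 : G'.Adj l' a := by
    refine (hadj l' a).2 (Or.inl ⟨hla, ?_, ?_⟩)
    · intro h
      rw [Sym2.eq_iff] at h
      rcases h with ⟨h, -⟩ | ⟨h, -⟩
      · exact ha (h ▸ hl')
      · exact hxl h.symm
    · intro h
      rw [Sym2.eq_iff] at h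
      rcases h with ⟨-, h⟩ | ⟨h, -⟩
      · exact hal' h
      · exact hll h.symm
  exact two_leaves (hf G' hG') (by rw [hG', hl]) (by rw [hG', hl']) hll e1 e2

/-- G has leaves with neighbours of degree not 1 only -/
def TII (f : V → ℕ) (G : SimpleGraph V) : Prop := ∀ l b, f l = 1 → G.Adj l b → f b ≠ 1

/-- if one leaf has a neighbour which is not a leaf, all leaves do -/
theorem tII_of [Finite V] {f : V → ℕ} (hf : Forc f) {G : SimpleGraph V} (hG : Rz f G) {l' a : V}
    (hl' : f l' = 1) (hla : G.Adj l' a) (ha : f a ≠ 1) (ha0 : f a ≠ 0) : TII f G := by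
  intro l b hl hlb hb
  have hll : l ≠ l' := by
    rintro rfl
    have := leaf_unique (by rw [hG, hl]) hlb hla
    subst this
    exact ha hb
  -- a second neighbour of a
  have h2 : 1 < (G.neighborSet a).ncard := by
    rw [hG a]; omega
  obtain ⟨x, hx, hxl⟩ := Set.exists_ne_of_one_lt_ncard h2 l'
  have hx' : G.Adj a x := hx
  have hab : a ≠ b := by
    rintro rfl
    exact ha hb
  have hxb : x ≠ b := by
    rintro rfl
    -- a is adjacent to b, whose only neighbour is l
    have := leaf_unique (by rw [hG, hb]) hx'.symm hlb.symm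
    subst this
    exact ha hl
  have h3 := sOne hf hG hl hl' hll hla hlb ha hx' hxl hxb
  have := leaf_unique (by rw [hG, hb]) h3 hlb.symm
  subst this
  have h4 := leaf_unique (by rw [hG, hl]) hx'.symm hlb
  exact hab h4

/-- if there are a leaf and a vertex which is not a leaf, some realization is of type TII -/
theorem exists_tII [Finite V] {f : V → ℕ} (hf : Forc f) (hv : ∃ G, Rz f G) {l w : V}
    (hl : f l = 1) (hw : f w ≠ 1) : ∃ G : SimpleGraph V, Rz f G ∧ TII f G := by
  obtain ⟨G, hG⟩ := hv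
  obtain ⟨m, hm⟩ := hf G hG
  have hpos : ∀ i, f i ≠ 0 := by
    intro i h0
    have h1 := hG i
    rw [h0, Set.ncard_eq_zero (Set.toFinite _)] at h1
    have h2 : m i ∈ G.neighborSet i := (hm i).2
    rw [h1] at h2
    exact h2
  by_cases hT : TII f G
  · exact ⟨G, hG, hT⟩
  unfold TII at hT
  push Not at hT
  obtain ⟨p, q, hp, hpq, hq⟩ := hT
  have hwy : G.Adj w (m w) := (hm w).2
  have hy1 : f (m w) ≠ 1 := by
    intro hy
    exact (tII_of hf hG hy hwy.symm hw (hpos w)) p q hp hpq hq
  -- switch p q and w (m w)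
  have hnpw : ¬ G.Adj p (m w) := by
    intro h
    have := leaf_unique (by rw [hG, hp]) h hpq
    exact hy1 (this ▸ hq)
  have hnwq : ¬ G.Adj w q := by
    intro h
    have := leaf_unique (by rw [hG, hq]) h.symm hpq.symm
    exact hw (this ▸ hp)
  have h1 : p ≠ m w := by
    rintro h
    exact hy1 (h ▸ hp)
  have h2 : w ≠ q := by
    rintro rfl
    exact hw hq
  obtain ⟨G', hd, hadj⟩ := switch G hpq hwy hnpw hnwq h1 h2
  have hG' : Rz f G' := fun v => (hd v).trans (hG v)
  have e1 : G'.Adj p (m w) := (hadj _ _).2 (Or.inr (Or.inl rfl))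
  exact ⟨G', hG', tII_of hf hG' hp e1 hy1 (hpos _)⟩

end Pool.Agent.MP_6e0dc6_co.Leaf2
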